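import Pool.Agent.Y882.SI.Quad
import Pool.Agent.Y882.GP.Mer
import Pool.Agent.W182.PW.Main
import Pool.Agent.TH464.PW.Quad
import Pool.Agent.TH977.PW.PrimeArg
import Pool.Agent.Y882.Fin

/-! The polynomial `a X ^ 2 - b` at prime arguments: densities and squares. -/

set_option autoImplicit false

open Finset Polynomial Filter Topology

namespace Pool.Agent.K9h53.P5

open Pool.Agent.Y882
open Pool.Agent.Y882.GP
open Pool.Agent.Y882.SI (QF QF_eval ro_quad mer_quad)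
open Pool.Agent.W23.DC
open Pool.Agent.Y882.PX (ro KF ro_eq)

/-- the polynomial `a X ^ 2 - b` -/
noncomputable def FF (a b : ℕ) : ℤ[X] := Pool.Agent.TH464.PW.quad (a : ℤ) 0 (-(b : ℤ))

theorem FF_eval (a b : ℕ) (m : ℤ) : (FF a b).eval m = a * m ^ 2 - b := by
  unfold FF
  rw [Pool.Agent.TH464.PW.quad_eval]
  ring

/-- the hypotheses on `a X ^ 2 - b` -/
structure Adm (a b : ℕ) : Prop where
  ha : 1 ≤ a
  hb : 1 ≤ b
  cop : a.Coprime b
  sq : ¬ IsSquare (((a * b : ℕ)) : ℤ)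
  adm : ∀ p : ℕ, p.Prime → ∃ m : ℕ, ¬ p ∣ m ∧ ¬ (p : ℤ) ∣ (a : ℤ) * (m : ℤ) ^ 2 - b

theorem FF_deg {a b : ℕ} (h : Adm a b) : (FF a b).natDegree = 2 := by
  unfold FF
  apply Pool.Agent.TH464.PW.quad_deg
  have := h.ha
  omega

theorem ro_FF (a b : ℕ) (p : ℕ) (hp : p.Prime) (h2 : p ≠ 2) (ha : ¬ p ∣ a) :
    ro (FF a b) 0 p = ro (QF (-(((a * b : ℕ)) : ℤ))) 0 p := by
  have : Fact p.Prime := ⟨hp⟩
  have hq := ro_quad (-(((a * b : ℕ)) : ℤ)) p hp h2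
  rw [neg_neg, ← jacobiSym.legendreSym.to_jacobiSym, add_comm, ← legendreSym.card_sqrts p h2] at hq
  have ha' : (a : ZMod p) ≠ 0 := by
    rw [Ne, ZMod.natCast_eq_zero_iff]
    exact ha
  have h1 : (ro (FF a b) 0 p : ℤ) = ({x : ZMod p | x ^ 2 = (((a * b : ℕ) : ℤ) : ZMod p)}.toFinset.card : ℤ) := by
    rw [ro_eq]
    congr 1
    apply card_bij' (i := fun (n : ℕ) _ => (a : ZMod p) * (n : ZMod p))
      (j := fun (x : ZMod p) _ => ((a : ZMod p)⁻¹ * x).val)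
    · intro n hn
      rw [mem_filter, mem_range, FF_eval, add_zero] at hn
      rw [Set.mem_toFinset, Set.mem_ofPred_eq]
      have h1 := (ZMod.intCast_zmod_eq_zero_iff_dvd ((a : ℤ) * (n : ℤ) ^ 2 - b) p).2 hn.2
      push_cast at h1 ⊢
      linear_combination (a : ZMod p) * h1
    · intro x hx
      rw [Set.mem_toFinset, Set.mem_ofPred_eq] at hx
      rw [mem_filter, mem_range, FF_eval, add_zero]
      refine ⟨ZMod.val_lt _, ?_⟩
      rw [← ZMod.intCast_zmod_eq_zero_iff_dvd]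
      push_cast at hx ⊢
      rw [ZMod.natCast_zmod_val]
      have h3 : (a : ZMod p) * ((a : ZMod p)⁻¹ * x) ^ 2 - b =
          (a : ZMod p)⁻¹ * (((a : ZMod p) * (a : ZMod p)⁻¹) * x ^ 2) - b := by ring
      rw [h3, mul_inv_cancel₀ ha', one_mul, hx]
      rw [← mul_assoc, inv_mul_cancel₀ ha', one_mul, sub_self]
    · intro n hn
      rw [mem_filter, mem_range] at hn
      rw [← mul_assoc, inv_mul_cancel₀ ha', one_mul]
      exact ZMod.val_cast_of_lt hn.1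
    · intro x _
      rw [ZMod.natCast_zmod_val, ← mul_assoc, mul_inv_cancel₀ ha', one_mul]
  have h3 : (ro (FF a b) 0 p : ℤ) = (ro (QF (-(((a * b : ℕ)) : ℤ))) 0 p : ℤ) := by
    rw [h1, hq]
  exact_mod_cast h3

theorem rs_eq_ro (a b : ℕ) (p : ℕ) (hp : p.Prime) (hb : ¬ p ∣ b) :
    rs (FF a b) 0 p = ro (FF a b) 0 p := by
  classical
  rw [ro_eq]
  unfold rs Rt
  congr 1
  apply filter_congr
  intro n _
  constructor
  · exact fun h => h.1
  · intro h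
    refine ⟨h, ?_⟩
    rw [Nat.coprime_comm, hp.coprime_iff_not_dvd]
    intro hn
    apply hb
    rw [FF_eval, add_zero] at h
    have h1 : (p : ℤ) ∣ (a : ℤ) * (n : ℤ) ^ 2 :=
      ((Int.natCast_dvd_natCast.2 hn).trans (dvd_pow_self _ two_ne_zero)).mul_left _
    have h2 : (p : ℤ) ∣ (b : ℤ) := by
      have := dvd_sub h1 h
      simpa using this
    exact_mod_cast h2

theorem rs_FF (a b : ℕ) (p : ℕ) (hp : p.Prime) (h2 : p ≠ 2) (ha : ¬ p ∣ a) (hb : ¬ p ∣ b) :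
    rs (FF a b) 0 p = ro (QF (-(((a * b : ℕ)) : ℤ))) 0 p := by
  rw [rs_eq_ro a b p hp hb, ro_FF a b p hp h2 ha]

theorem rs_FF_le (a b : ℕ) (p : ℕ) (hp : p.Prime) (h2 : p ≠ 2) (ha : ¬ p ∣ a) (hb : ¬ p ∣ b) :
    rs (FF a b) 0 p ≤ 2 := by
  rw [rs_FF a b p hp h2 ha hb]
  exact Pool.Agent.Y882.SI.ro_quad_le _ p hp

/-- the densities are regular -/
theorem mer_FF {a b : ℕ} (h : Adm a b) (ε₁ υ η : ℝ) (hε : 0 < ε₁) (hυ : υ ≤ 1)
    (hη : 0 < η) : ∃ Y0 : ℕ, ∀ Y : ℕ, Y0 ≤ Y →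
      Mer (pr Y ε₁ υ) (tt Y) (fun p => (rs (FF a b) 0 p : ℝ) / ((p : ℝ) - 1)) ε₁ υ η := by
  classical
  obtain ⟨Y1, H1⟩ := mer_quad (-(((a * b : ℕ)) : ℤ)) (by rw [neg_neg]; exact h.sq) ε₁ υ (η / 2) hε hυ
    (by linarith)
  have ev1 := polylog (16 / η) 1 ε₁ hε
  have ev2 : ∀ᶠ Y : ℕ in atTop, (a : ℝ) + b + 3 ≤ (Y : ℝ) ^ ε₁ :=
    ((tendsto_rpow_atTop hε).comp tendsto_natCast_atTop_atTop).eventually_ge_atTop _
  obtain ⟨Y2, H2⟩ := eventually_atTop.1 (ev1.and (ev2.and (eventually_ge_atTop 3)))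
  refine ⟨max Y1 Y2, fun Y hY => ?_⟩
  obtain ⟨e1, e2, e3⟩ := H2 Y ((le_max_right _ _).trans hY)
  have hY2 : 2 ≤ Y := by omega
  have hYr : (3 : ℝ) ≤ Y := by exact_mod_cast e3
  have hY0 : (0 : ℝ) < Y := by linarith
  have hl1 : 1 ≤ Real.log Y := by
    rw [Real.le_log_iff_exp_le hY0]
    linarith [Real.exp_one_lt_d9]
  have hM := H1 Y ((le_max_left _ _).trans hY)
  intro u v hu huv hv
  have h1 := hM u v hu huv hv
  set Q := (pr Y ε₁ υ).filter (fun p => u ≤ tt Y p ∧ tt Y p < v) with hQ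
  have hQp : ∀ p ∈ Q, p.Prime ∧ p ≤ Y ∧ (Y : ℝ) ^ ε₁ ≤ p := by
    intro p hp
    have := PX.pr_mem Y p ε₁ υ hY2 (mem_filter.1 hp).1
    refine ⟨this.1, ?_, this.2.1⟩
    have h9 := (mem_filter.1 hp).1
    unfold pr at h9
    exact (mem_Icc.1 (mem_filter.1 h9).1).2
  have hYε : (0 : ℝ) < (Y : ℝ) ^ ε₁ := by positivity
  have hdiff : |∑ p ∈ Q, (rs (FF a b) 0 p : ℝ) / ((p : ℝ) - 1) -
      ∑ p ∈ Q, (ro (QF (-(((a * b : ℕ)) : ℤ))) 0 p : ℝ) / p| ≤ η / 2 := by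
    rw [← sum_sub_distrib]
    refine (abs_sum_le_sum_abs _ _).trans ?_
    have b1 : ∀ p ∈ Q, |(rs (FF a b) 0 p : ℝ) / ((p : ℝ) - 1) -
        (ro (QF (-(((a * b : ℕ)) : ℤ))) 0 p : ℝ) / p| ≤ (4 / (Y : ℝ) ^ ε₁) * (1 / (p : ℝ)) := by
      intro p hp
      obtain ⟨h3, h4, h5⟩ := hQp p hp
      have hp3 : (a : ℝ) + b + 3 ≤ p := e2.trans h5
      have hp3' : a + b + 3 ≤ p := by exact_mod_cast hp3
      have ha1 := h.ha
      have hb1 := h.hb
      have hpa : ¬ p ∣ a := fun hd => by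
        have := Nat.le_of_dvd ha1 hd
        omega
      have hpb : ¬ p ∣ b := fun hd => by
        have := Nat.le_of_dvd hb1 hd
        omega
      rw [rs_FF a b p h3 (by omega) hpa hpb]
      have hr : (ro (QF (-(((a * b : ℕ)) : ℤ))) 0 p : ℝ) ≤ 2 := by
        exact_mod_cast Pool.Agent.Y882.SI.ro_quad_le _ p h3
      set ρ : ℝ := (ro (QF (-(((a * b : ℕ)) : ℤ))) 0 p : ℝ) with hρ
      have hρ0 : 0 ≤ ρ := Nat.cast_nonneg _
      have hp2 : (2 : ℝ) ≤ p := by exact_mod_cast h3.two_le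
      have hp1 : (0 : ℝ) < (p : ℝ) - 1 := by linarith
      have e : ρ / ((p : ℝ) - 1) - ρ / p = ρ / (((p : ℝ) - 1) * p) := by
        field_simp
        ring
      rw [e, abs_of_nonneg (by positivity), div_mul_div_comm, mul_one,
        div_le_div_iff₀ (by positivity) (by positivity)]
      have h6 : (Y : ℝ) ^ ε₁ ≤ 2 * ((p : ℝ) - 1) := by linarith
      have hp0 : (0 : ℝ) < p := by linarith
      calc ρ * ((Y : ℝ) ^ ε₁ * p) ≤ 2 * ((2 * ((p : ℝ) - 1)) * p) := by gcongr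
        _ = 4 * (((p : ℝ) - 1) * p) := by ring
    refine (sum_le_sum b1).trans ?_
    rw [← mul_sum]
    have h3 := harmonic_le_one_add_log Y
    rw [harmonic_eq_sum_Icc] at h3
    push_cast at h3
    have h4 : ∑ p ∈ Q, 1 / (p : ℝ) ≤ 1 + Real.log Y := by
      refine le_trans ?_ h3
      simp_rw [one_div]
      apply sum_le_sum_of_subset_of_nonneg
      · intro p hp
        rw [mem_Icc]
        exact ⟨(hQp p hp).1.one_le, (hQp p hp).2.1⟩
      · intro _ _ _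
        positivity
    rw [pow_one] at e1
    calc (4 / (Y : ℝ) ^ ε₁) * ∑ p ∈ Q, 1 / (p : ℝ) ≤ (4 / (Y : ℝ) ^ ε₁) * (1 + Real.log Y) := by
          gcongr
      _ ≤ (4 / (Y : ℝ) ^ ε₁) * (2 * Real.log Y) := by
          gcongr
          linarith
      _ = (η / 2) * ((16 / η * Real.log Y) / (Y : ℝ) ^ ε₁) := by
          field_simp
          ring
      _ ≤ (η / 2) * 1 := by
          apply mul_le_mul_of_nonneg_left _ (by linarith)
          rw [div_le_one hYε]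
          exact e1
      _ = η / 2 := mul_one _
  have h2 : |∑ p ∈ Q, (rs (FF a b) 0 p : ℝ) / ((p : ℝ) - 1) - Real.log (v / u)| ≤
      |∑ p ∈ Q, (rs (FF a b) 0 p : ℝ) / ((p : ℝ) - 1) -
        ∑ p ∈ Q, (ro (QF (-(((a * b : ℕ)) : ℤ))) 0 p : ℝ) / p| +
      |∑ p ∈ Q, (ro (QF (-(((a * b : ℕ)) : ℤ))) 0 p : ℝ) / p - Real.log (v / u)| := by
    have : ∑ p ∈ Q, (rs (FF a b) 0 p : ℝ) / ((p : ℝ) - 1) - Real.log (v / u) =
      (∑ p ∈ Q, (rs (FF a b) 0 p : ℝ) / ((p : ℝ) - 1) -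
        ∑ p ∈ Q, (ro (QF (-(((a * b : ℕ)) : ℤ))) 0 p : ℝ) / p) +
      (∑ p ∈ Q, (ro (QF (-(((a * b : ℕ)) : ℤ))) 0 p : ℝ) / p - Real.log (v / u)) := by ring
    rw [this]
    exact abs_add_le _ _
  simp only at h1 ⊢
  linarith

open Pool.Agent.H373R2.T7 Pool.Agent.W123.RU Pool.Agent.W123.RU.Poly in
/-- lower bound of the local factor -/
theorem prod_FF {a b : ℕ} (h : Adm a b) : ∃ w : ℝ, 0 < w ∧ ∀ (Y : ℕ) (ε₁ : ℝ), 3 ≤ Y →
    w / Real.log Y ≤ ∏ p ∈ PZ Y ε₁, (1 - (rs (FF a b) 0 p : ℝ) / ((p : ℝ) - 1)) := by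
  classical
  have ha0 : (a : ℤ) ≠ 0 := by
    have := h.ha
    omega
  have hsys := Pool.Agent.TH977.PW.sys_ext (fun _ : Fin 1 => FF a b)
    (fun _ => by
      unfold FF
      apply Pool.Agent.TH464.PW.quad_irr _ _ _ ha0
      · rintro p hp ⟨h1, _, h3⟩
        rw [dvd_neg] at h3
        have h4 : p ∣ a := by exact_mod_cast h1
        have h5 : p ∣ b := by exact_mod_cast h3
        have h6 := Nat.dvd_gcd h4 h5
        rw [h.cop] at h6
        exact hp.one_lt.ne' (Nat.dvd_one.1 h6)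
      · intro hsq
        apply h.sq
        obtain ⟨r, hr⟩ := hsq
        have h1 : r * r = 4 * ((a : ℤ) * b) := by rw [← hr]; ring
        have h2 : (2 : ℤ) ∣ r := by
          have : (2 : ℤ) ∣ r * r := by
            rw [h1]
            exact ⟨2 * ((a : ℤ) * b), by ring⟩
          rcases Int.prime_two.dvd_or_dvd this with h3 | h3 <;> exact h3
        obtain ⟨s, hs⟩ := h2
        refine ⟨s, ?_⟩
        push_cast
        rw [hs] at h1
        linarith)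
    (fun _ => by rw [FF_deg h]; norm_num)
    (fun _ => by
      unfold FF
      rw [Pool.Agent.TH464.PW.quad_lead _ _ _ ha0]
      have := h.ha
      omega)
    (fun _ _ _ => Subsingleton.elim _ _)
    (fun _ hX => by
      have h1 := FF_deg h
      rw [hX, natDegree_X] at h1
      omega)
    (fun p hp => by
      obtain ⟨m, h1, h2⟩ := h.adm p hp
      refine ⟨m, h1, fun _ => ?_⟩
      rw [FF_eval]
      exact h2)
  obtain ⟨w, hw, hW⟩ := Pool.Agent.W182.PW.prod_low (fun _ : Fin 1 => FF a b) hsys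
  refine ⟨w, hw, fun Y ε₁ hY => ?_⟩
  have h1 := hW Y hY
  rw [Fintype.card_fin, pow_one] at h1
  refine h1.trans ?_
  have hrho : ∀ p : ℕ, p.Prime → rhoA (Poly.Q (fun _ : Fin 1 => FF a b)) p = rs (FF a b) 0 p := by
    intro p hp
    unfold rhoA rs Rt
    congr 1
    apply filter_congr
    intro n _
    unfold Poly.Q
    rw [add_zero, Nat.coprime_comm, hp.coprime_iff_not_dvd]
    constructor
    · rintro ⟨h1, i, h2⟩
      exact ⟨h2, h1⟩
    · rintro ⟨h1, h2⟩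
      exact ⟨h2, 0, h1⟩
  have hfac : ∀ p : ℕ, p.Prime → 0 ≤ 1 - (rs (FF a b) 0 p : ℝ) / ((p : ℝ) - 1) ∧
      1 - (rs (FF a b) 0 p : ℝ) / ((p : ℝ) - 1) ≤ 1 := by
    intro p hp
    have hp2 : (2 : ℝ) ≤ p := by exact_mod_cast hp.two_le
    have h2 := rs_le_pred (FF a b) 0 p hp
    have h3 : (rs (FF a b) 0 p : ℝ) ≤ (p : ℝ) - 1 := by
      have : ((rs (FF a b) 0 p : ℕ) : ℝ) ≤ ((p - 1 : ℕ) : ℝ) := by exact_mod_cast h2
      rwa [Nat.cast_sub hp.one_le, Nat.cast_one] at this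
    constructor
    · rw [sub_nonneg, div_le_one (by linarith)]
      exact h3
    · have : 0 ≤ (rs (FF a b) 0 p : ℝ) / ((p : ℝ) - 1) := div_nonneg (Nat.cast_nonneg _) (by linarith)
      linarith
  have e : ∏ p ∈ pz Y, (1 - (rhoA (Poly.Q (fun _ : Fin 1 => FF a b)) p : ℝ) / (p - 1 : ℝ)) =
      ∏ p ∈ pz Y, (1 - (rs (FF a b) 0 p : ℝ) / ((p : ℝ) - 1)) := by
    apply prod_congr rfl
    intro p hp
    rw [hrho p (mem_pz.1 hp).2]
  rw [e]
  have hsub : PZ Y ε₁ ⊆ pz Y := by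
    intro p hp
    unfold PZ at hp
    rw [mem_filter, mem_Icc] at hp
    exact mem_pz.2 ⟨hp.1.2, hp.2.1⟩
  rw [← Finset.prod_sdiff hsub]
  have h2 : ∏ p ∈ pz Y \ PZ Y ε₁, (1 - (rs (FF a b) 0 p : ℝ) / ((p : ℝ) - 1)) ≤ 1 := by
    apply Finset.prod_le_one
    · intro p hp
      exact (hfac p (mem_pz.1 (mem_sdiff.1 hp).1).2).1
    · intro p hp
      exact (hfac p (mem_pz.1 (mem_sdiff.1 hp).1).2).2
  have h3 : 0 ≤ ∏ p ∈ PZ Y ε₁, (1 - (rs (FF a b) 0 p : ℝ) / ((p : ℝ) - 1)) :=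
    Finset.prod_nonneg fun p hp => (hfac p (mem_pz.1 (hsub hp)).2).1
  calc (∏ p ∈ pz Y \ PZ Y ε₁, (1 - (rs (FF a b) 0 p : ℝ) / ((p : ℝ) - 1))) *
      ∏ p ∈ PZ Y ε₁, (1 - (rs (FF a b) 0 p : ℝ) / ((p : ℝ) - 1)) ≤
      1 * ∏ p ∈ PZ Y ε₁, (1 - (rs (FF a b) 0 p : ℝ) / ((p : ℝ) - 1)) :=
        mul_le_mul_of_nonneg_right h2 h3
    _ = _ := one_mul _

/-- a set of congruent numbers -/
theorem class_card (Y q : ℕ) (hq : 0 < q) (S : Finset ℕ) (hS : S ⊆ Icc 1 Y)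
    (hc : ∀ m ∈ S, ∀ n ∈ S, m ≡ n [MOD q]) : (S.card : ℝ) ≤ (Y : ℝ) / q + 1 := by
  have h1 : S.card ≤ Y / q + 1 := by
    rw [← card_range (Y / q + 1)]
    apply card_le_card_of_injOn (fun m => m / q)
    · intro m hm
      rw [Finset.mem_coe] at hm
      rw [Finset.mem_coe, mem_range]
      exact Nat.lt_succ_of_le (Nat.div_le_div_right (mem_Icc.1 (hS hm)).2)
    · intro m hm n hn hmn
      rw [Finset.mem_coe] at hm hn
      simp only at hmn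
      have h2 : m % q = n % q := hc m hm n hn
      rw [← Nat.div_add_mod m q, ← Nat.div_add_mod n q, hmn, h2]
  calc (S.card : ℝ) ≤ ((Y / q + 1 : ℕ) : ℝ) := by exact_mod_cast h1
    _ ≤ (Y : ℝ) / q + 1 := by
        push_cast
        linarith [Nat.cast_div_le (α := ℝ) (m := Y) (n := q)]

open Classical in
/-- the values divisible by the square of a prime -/
theorem sq_card (a b : ℕ) (Y q : ℕ) (hq : q.Prime) (h2 : q ≠ 2)
    (hqa : ¬ q ∣ a) (hqb : ¬ q ∣ b) :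
    (((Icc 1 Y).filter (fun m : ℕ => q ^ 2 ∣ ((FF a b).eval (m : ℤ)).natAbs)).card : ℝ) ≤
      2 * ((Y : ℝ) / ((q : ℝ) ^ 2) + 1) := by
  set T := (Icc 1 Y).filter (fun m : ℕ => q ^ 2 ∣ ((FF a b).eval (m : ℤ)).natAbs) with hT
  rcases T.eq_empty_or_nonempty with h0 | ⟨m0, hm0⟩
  · rw [h0]
    simp only [card_empty, CharP.cast_eq_zero]
    positivity
  have hmem : ∀ m ∈ T, ((q : ℤ) ^ 2) ∣ (a : ℤ) * (m : ℤ) ^ 2 - b := by
    intro m hm
    rw [hT, mem_filter] at hm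
    have h1 := Int.natCast_dvd.2 hm.2
    rw [FF_eval] at h1
    exact_mod_cast h1
  have hq2 : 0 < q ^ 2 := pow_pos hq.pos 2
  have hqi : Prime (q : ℤ) := Nat.prime_iff_prime_int.1 hq
  have hnd : ¬ (q : ℤ) ∣ (m0 : ℤ) := by
    intro hd
    apply hqb
    have h3 := (dvd_pow_self (q : ℤ) two_ne_zero).trans (hmem m0 hm0)
    have h4 : (q : ℤ) ∣ (a : ℤ) * (m0 : ℤ) ^ 2 := (hd.trans (dvd_pow_self _ two_ne_zero)).mul_left _
    have h5 : (q : ℤ) ∣ (b : ℤ) := by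
      have := dvd_sub h4 h3
      simpa using this
    exact_mod_cast h5
  have hsub : T ⊆ T.filter (fun m : ℕ => ((q ^ 2 : ℕ) : ℤ) ∣ (m : ℤ) - m0) ∪
      T.filter (fun m : ℕ => ((q ^ 2 : ℕ) : ℤ) ∣ (m : ℤ) + m0) := by
    intro m hm
    have hm1 := hmem m hm
    have hm2 := hmem m0 hm0
    have h3 : ((q : ℤ) ^ 2) ∣ (a : ℤ) * (((m : ℤ) - m0) * ((m : ℤ) + m0)) := by
      have e : (a : ℤ) * (((m : ℤ) - m0) * ((m : ℤ) + m0)) =
          ((a : ℤ) * (m : ℤ) ^ 2 - b) - ((a : ℤ) * (m0 : ℤ) ^ 2 - b) := by ring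
      rw [e]
      exact dvd_sub hm1 hm2
    have hcop : IsCoprime ((q : ℤ) ^ 2) (a : ℤ) := by
      apply IsCoprime.pow_left
      rw [Nat.isCoprime_iff_coprime]
      exact (hq.coprime_iff_not_dvd.2 hqa)
    have h4 : ((q : ℤ) ^ 2) ∣ ((m : ℤ) - m0) * ((m : ℤ) + m0) := hcop.dvd_of_dvd_mul_left h3
    have h5 : ¬ ((q : ℤ) ∣ (m : ℤ) - m0 ∧ (q : ℤ) ∣ (m : ℤ) + m0) := by
      rintro ⟨h6, h7⟩
      have h8 : (q : ℤ) ∣ 2 * (m0 : ℤ) := by
        have e : 2 * (m0 : ℤ) = ((m : ℤ) + m0) - ((m : ℤ) - m0) := by ring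
        rw [e]
        exact dvd_sub h7 h6
      rcases hqi.dvd_or_dvd h8 with h9 | h9
      · have : q ∣ 2 := by exact_mod_cast h9
        exact h2 ((Nat.prime_dvd_prime_iff_eq hq Nat.prime_two).1 this)
      · exact hnd h9
    rw [mem_union, mem_filter (s := T), mem_filter (s := T)]
    by_cases h6 : (q : ℤ) ∣ (m : ℤ) - m0
    · left
      refine ⟨hm, ?_⟩
      have h7 : ¬ (q : ℤ) ∣ (m : ℤ) + m0 := fun h => h5 ⟨h6, h⟩
      have hc : IsCoprime ((q : ℤ) ^ 2) ((m : ℤ) + m0) :=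
        IsCoprime.pow_left ((Irreducible.coprime_iff_not_dvd hqi.irreducible).2 h7)
      push_cast
      exact hc.dvd_of_dvd_mul_right h4
    · right
      refine ⟨hm, ?_⟩
      have hc : IsCoprime ((q : ℤ) ^ 2) ((m : ℤ) - m0) :=
        IsCoprime.pow_left ((Irreducible.coprime_iff_not_dvd hqi.irreducible).2 h6)
      push_cast
      exact hc.dvd_of_dvd_mul_left h4
  have hTI : T ⊆ Icc 1 Y := filter_subset _ _
  have c1 : ((T.filter (fun m : ℕ => ((q ^ 2 : ℕ) : ℤ) ∣ (m : ℤ) - m0)).card : ℝ) ≤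
      (Y : ℝ) / ((q ^ 2 : ℕ) : ℝ) + 1 := by
    apply class_card Y (q ^ 2) hq2 _ ((filter_subset _ _).trans hTI)
    intro m hm n hn
    rw [mem_filter (s := T)] at hm hn
    rw [Nat.modEq_iff_dvd]
    have e : (n : ℤ) - (m : ℤ) = ((n : ℤ) - m0) - ((m : ℤ) - m0) := by ring
    rw [e]
    exact dvd_sub hn.2 hm.2
  have c2 : ((T.filter (fun m : ℕ => ((q ^ 2 : ℕ) : ℤ) ∣ (m : ℤ) + m0)).card : ℝ) ≤
      (Y : ℝ) / ((q ^ 2 : ℕ) : ℝ) + 1 := by
    apply class_card Y (q ^ 2) hq2 _ ((filter_subset _ _).trans hTI)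
    intro m hm n hn
    rw [mem_filter (s := T)] at hm hn
    rw [Nat.modEq_iff_dvd]
    have e : (n : ℤ) - (m : ℤ) = ((n : ℤ) + m0) - ((m : ℤ) + m0) := by ring
    rw [e]
    exact dvd_sub hn.2 hm.2
  have cc : ((q ^ 2 : ℕ) : ℝ) = (q : ℝ) ^ 2 := by push_cast; ring
  rw [cc] at c1 c2
  have h3 : (T.card : ℝ) ≤ ((T.filter (fun m : ℕ => ((q ^ 2 : ℕ) : ℤ) ∣ (m : ℤ) - m0)).card : ℝ) +
      ((T.filter (fun m : ℕ => ((q ^ 2 : ℕ) : ℤ) ∣ (m : ℤ) + m0)).card : ℝ) := by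
    exact_mod_cast (card_le_card hsub).trans (card_union_le _ _)
  linarith

end Pool.Agent.K9h53.P5
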