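import Pool.Agent.K9h53.P5.Low
import Pool.Agent.K9h53.P5.Quad
import Pool.Agent.Y882.KW.Num

/-! Primes `p` for which `a p ^ 2 - b` has at most five prime factors: the lower bound of the right order. -/

set_option autoImplicit false

open Finset Polynomial Filter Topology

namespace Pool.Agent.K9h53.P5

open Pool.Agent.Y882
open Pool.Agent.Y882.GP hiding WW
open Pool.Agent.Y882.KW (WW core3 almost cond_A)
open Pool.Agent.W23.DC
open Pool.Agent.H410R2
open Pool.Agent.H732R2.B2 (Sc card_prim)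
open Pool.Agent.Y882.PX (ro KF)

open Classical in
theorem WW_le_one (Y : ℕ) (ζ υ lam : ℝ) (hυ : 0 < υ) (hlam : 0 ≤ lam) (N : ℕ) :
    WW Y ζ υ lam (lam / υ) N ≤ 1 := by
  have h1 : 0 ≤ ∑ q ∈ pr Y ζ υ, (lam - lam / υ * tt Y q) * (if q ∣ N then (1 : ℝ) else 0) := by
    apply sum_nonneg
    intro q hq
    have h2 : tt Y q < υ := by
      unfold pr at hq
      rw [mem_filter] at hq
      exact hq.2.2.2
    apply mul_nonneg
    · have h3 : lam / υ * tt Y q ≤ lam / υ * υ := mul_le_mul_of_nonneg_left h2.le (by positivity)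
      rw [div_mul_cancel₀ _ hυ.ne'] at h3
      linarith
    · split_ifs <;> norm_num
  unfold WW
  split_ifs
  · linarith
  · rw [zero_mul]; norm_num

/-- `m` is a prime, `a m ^ 2 - b` has at most `r` prime factors, all at least `z` -/
def Pr (a b r : ℕ) (z : ℝ) (m : ℕ) : Prop :=
  m.Prime ∧ ((a : ℤ) * (m : ℤ) ^ 2 - b).natAbs.primeFactorsList.length ≤ r ∧
    ∀ q : ℕ, q.Prime → (q : ℤ) ∣ (a : ℤ) * (m : ℤ) ^ 2 - b → z ≤ q

theorem FF_ne {a b : ℕ} (h : Adm a b) (m : ℤ) : (FF a b).eval m ≠ 0 := by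
  rw [FF_eval]
  intro h0
  apply h.sq
  refine ⟨a * m, ?_⟩
  push_cast
  have h1 : (b : ℤ) = a * m ^ 2 := by linarith
  rw [h1]
  ring

theorem fin_aux {A B C D E F G H U V : ℝ} (h1 : A + B - (C + D) ≤ E) (h2 : -F ≤ A)
    (h3 : E ≤ V + G + H) (h4 : 8 * U ≤ B) (h5 : F ≤ U) (h6 : C ≤ U) (h7 : D ≤ U) (h8 : G ≤ U)
    (h9 : H ≤ U) : 3 * U ≤ V := by
  linarith

open Classical in
/-- the sum of the positive parts of the weights is bounded by the number of the good primes -/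
theorem upperW {a b : ℕ} (h : Adm a b) (X Y r : ℕ) (hXY : Y = 2 * X) (hX : 1 ≤ X) (ζ ζ' υ lam S : ℝ)
    (hζ : 0 < ζ) (hζ' : ζ' ≤ ζ) (hζ'0 : 0 ≤ ζ') (hζυ : ζ ≤ υ) (hυ1 : υ ≤ 1) (hlam : 0 < lam)
    (hr : 1 / lam + S / υ ≤ r + 1)
    (hS : ((a : ℝ) + b) * (Y : ℝ) ^ 2 ≤ (Y : ℝ) ^ S) (hYζ : (a : ℝ) + b + 2 < (Y : ℝ) ^ ζ) :
    ∑ m ∈ Icc 1 Y, al (Y : ℝ) m * max 0 (WW Y ζ υ lam (lam / υ) ((FF a b).eval (m : ℤ)).natAbs) ≤
      (((Ioc X (2 * X)).filter (fun m : ℕ => Pr a b r ((m : ℝ) ^ ζ') m)).card : ℝ) * Real.log Y +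
      2 * √(Y : ℝ) * Real.log Y +
      2 * Real.log Y * (1 + Real.log Y) * ((Y : ℝ) ^ (1 - ζ) + (Y : ℝ) ^ υ) := by
  have hY2 : 2 ≤ Y := by omega
  have hYr : (2 : ℝ) ≤ Y := by exact_mod_cast hY2
  have hY0 : (0 : ℝ) < Y := by linarith
  have hY1 : (1 : ℝ) ≤ Y := by linarith
  have hL0 : 0 < Real.log Y := Real.log_pos (by linarith)
  have hυ0 : 0 < υ := lt_of_lt_of_le hζ hζυ
  set L := Real.log (Y : ℝ) with hL
  have hpt : ∀ m ∈ Icc 1 Y, al (Y : ℝ) m *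
      max 0 (WW Y ζ υ lam (lam / υ) ((FF a b).eval (m : ℤ)).natAbs) ≤
      (if m ∈ (Ioc X (2 * X)).filter (fun m : ℕ => Pr a b r ((m : ℝ) ^ ζ') m) then L else 0) +
      (if ¬ m.Prime then al (Y : ℝ) m else 0) +
      ∑ q ∈ pr Y ζ υ, (if q ^ 2 ∣ ((FF a b).eval (m : ℤ)).natAbs then L else 0) := by
    intro m hm
    rw [mem_Icc] at hm
    have hal0 : 0 ≤ al (Y : ℝ) m := al_nonneg _ hY0 m hm.1
    have halL : al (Y : ℝ) m ≤ L := by
      refine (al_le _ hY0 m hm.1).trans (ArithmeticFunction.vonMangoldt_le_log.trans ?_)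
      apply Real.log_le_log (by exact_mod_cast hm.1)
      exact_mod_cast hm.2
    have t1 : 0 ≤ (if m ∈ (Ioc X (2 * X)).filter (fun m : ℕ => Pr a b r ((m : ℝ) ^ ζ') m) then L else 0) := by
      split_ifs
      · exact hL0.le
      · exact le_rfl
    have t2 : 0 ≤ (if ¬ m.Prime then al (Y : ℝ) m else 0) := by
      split_ifs
      · exact le_rfl
      · exact hal0
    have t3 : 0 ≤ ∑ q ∈ pr Y ζ υ, (if q ^ 2 ∣ ((FF a b).eval (m : ℤ)).natAbs then L else 0) := by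
      apply sum_nonneg
      intro q _
      split_ifs
      · exact hL0.le
      · exact le_rfl
    have hW1 := WW_le_one Y ζ υ lam hυ0 hlam.le ((FF a b).eval (m : ℤ)).natAbs
    have hmax1 : max 0 (WW Y ζ υ lam (lam / υ) ((FF a b).eval (m : ℤ)).natAbs) ≤ 1 :=
      max_le zero_le_one hW1
    have hlhs : al (Y : ℝ) m *
      max 0 (WW Y ζ υ lam (lam / υ) ((FF a b).eval (m : ℤ)).natAbs) ≤ al (Y : ℝ) m :=
      mul_le_of_le_one_right hal0 hmax1
    by_cases hp : m.Prime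
    swap
    · have e2 : (if ¬ m.Prime then al (Y : ℝ) m else 0) = al (Y : ℝ) m := if_pos hp
      rw [e2]
      linarith
    by_cases hsq : ∃ q ∈ pr Y ζ υ, q ^ 2 ∣ ((FF a b).eval (m : ℤ)).natAbs
    · obtain ⟨q, hq, hq2⟩ := hsq
      have h1 : L ≤ ∑ q ∈ pr Y ζ υ, (if q ^ 2 ∣ ((FF a b).eval (m : ℤ)).natAbs then L else 0) := by
        have h2 : (if q ^ 2 ∣ ((FF a b).eval (m : ℤ)).natAbs then L else 0) ≤
            ∑ q ∈ pr Y ζ υ, (if q ^ 2 ∣ ((FF a b).eval (m : ℤ)).natAbs then L else 0) :=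
          single_le_sum (f := fun q => if q ^ 2 ∣ ((FF a b).eval (m : ℤ)).natAbs then L else 0)
            (fun q _ => by
              split_ifs
              · exact hL0.le
              · exact le_rfl) hq
        rw [if_pos hq2] at h2
        exact h2
      linarith
    rcases le_or_gt (WW Y ζ υ lam (lam / υ) ((FF a b).eval (m : ℤ)).natAbs) 0 with hW | hW
    · rw [max_eq_left hW, mul_zero]
      linarith
    rcases le_or_gt m X with hmX | hmX
    · have h1 : (m : ℝ) ≤ (Y : ℝ) / 2 := by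
        rw [hXY]
        push_cast
        have : (m : ℝ) ≤ X := by exact_mod_cast hmX
        linarith
      have h2 := (tw_cases (Y : ℝ) hY0 m hm.1).2.2.1 h1
      have h3 : al (Y : ℝ) m = 0 := by
        unfold al
        rw [h2, mul_zero]
      have h4 : al (Y : ℝ) m *
          max 0 (WW Y ζ υ lam (lam / υ) ((FF a b).eval (m : ℤ)).natAbs) = 0 := by
        rw [h3, zero_mul]
      rw [h4]
      linarith
    · have hgood : m ∈ (Ioc X (2 * X)).filter (fun m : ℕ => Pr a b r ((m : ℝ) ^ ζ') m) := by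
        rw [mem_filter, mem_Ioc]
        refine ⟨⟨hmX, hm.2.trans hXY.le⟩, hp, ?_⟩
        have hmY : (m : ℝ) ≤ Y := by exact_mod_cast hm.2
        have hm0 : (0 : ℝ) ≤ m := Nat.cast_nonneg m
        have hNS : ((((FF a b).eval (m : ℤ)).natAbs : ℕ) : ℝ) ≤ (Y : ℝ) ^ S := by
          refine le_trans ?_ hS
          have h1 : ((((FF a b).eval (m : ℤ)).natAbs : ℕ) : ℝ) = |(((FF a b).eval (m : ℤ) : ℤ) : ℝ)| := by
            rw [Nat.cast_natAbs, Int.cast_abs]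
          rw [h1, FF_eval]
          push_cast
          calc |(a : ℝ) * (m : ℝ) ^ 2 - b| ≤ |(a : ℝ) * (m : ℝ) ^ 2| + |(b : ℝ)| := abs_sub _ _
            _ = a * (m : ℝ) ^ 2 + b := by
                rw [abs_of_nonneg (by positivity), abs_of_nonneg (by positivity)]
            _ ≤ a * (Y : ℝ) ^ 2 + b * (Y : ℝ) ^ 2 := by
                have : (1 : ℝ) ≤ (Y : ℝ) ^ 2 := one_le_pow₀ hY1
                have hb0 : (0 : ℝ) ≤ b := Nat.cast_nonneg b
                gcongr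
                exact le_mul_of_one_le_right hb0 this
            _ = _ := by ring
        have hal := almost Y hY2 ζ υ lam S r hζυ hυ0 hυ1 hlam hr ((FF a b).eval (m : ℤ)).natAbs
          (Int.natAbs_ne_zero.2 (FF_ne h m)) hNS hW (fun q hq hd => hsq ⟨q, hq, hd⟩)
        rw [FF_eval] at hal
        refine ⟨hal.1, fun q hq hd => ?_⟩
        refine le_trans ?_ (hal.2 q hq (Int.natCast_dvd.1 hd))
        calc (m : ℝ) ^ ζ' ≤ (Y : ℝ) ^ ζ' := Real.rpow_le_rpow hm0 hmY hζ'0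
          _ ≤ (Y : ℝ) ^ ζ := Real.rpow_le_rpow_of_exponent_le hY1 hζ'
      rw [if_pos hgood]
      linarith
  refine (sum_le_sum hpt).trans ?_
  rw [sum_add_distrib, sum_add_distrib]
  have e1 : ∑ m ∈ Icc 1 Y, (if m ∈ (Ioc X (2 * X)).filter (fun m : ℕ => Pr a b r ((m : ℝ) ^ ζ') m) then L else 0) ≤
      (((Ioc X (2 * X)).filter (fun m : ℕ => Pr a b r ((m : ℝ) ^ ζ') m)).card : ℝ) * L := by
    rw [← sum_filter, sum_const, nsmul_eq_mul]
    apply mul_le_mul_of_nonneg_right _ hL0.le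
    have : ((Icc 1 Y).filter (fun m => m ∈ (Ioc X (2 * X)).filter
        (fun m : ℕ => Pr a b r ((m : ℝ) ^ ζ') m))).card ≤
        ((Ioc X (2 * X)).filter (fun m : ℕ => Pr a b r ((m : ℝ) ^ ζ') m)).card := by
      apply card_le_card
      intro m hm
      exact (mem_filter.1 hm).2
    exact_mod_cast this
  have e2 : ∑ m ∈ Icc 1 Y, (if ¬ m.Prime then al (Y : ℝ) m else 0) ≤ 2 * √(Y : ℝ) * L := by
    rw [← sum_filter]
    have h1 := al_pp (Y : ℝ) hY1
    rw [Nat.floor_natCast] at h1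
    exact h1
  have e3 : ∑ m ∈ Icc 1 Y, ∑ q ∈ pr Y ζ υ, (if q ^ 2 ∣ ((FF a b).eval (m : ℤ)).natAbs then L else 0) ≤
      2 * L * (1 + L) * ((Y : ℝ) ^ (1 - ζ) + (Y : ℝ) ^ υ) := by
    rw [sum_comm]
    have b1 : ∀ q ∈ pr Y ζ υ, ∑ m ∈ Icc 1 Y,
        (if q ^ 2 ∣ ((FF a b).eval (m : ℤ)).natAbs then L else 0) ≤
        (2 * L * ((Y : ℝ) ^ (1 - ζ) + (Y : ℝ) ^ υ)) * (1 / (q : ℝ)) := by
      intro q hq
      obtain ⟨h3, h4, h5⟩ := PX.pr_mem Y q ζ υ hY2 hq
      have hq3 : a + b + 2 < q := by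
        have : (a : ℝ) + b + 2 < q := lt_of_lt_of_le hYζ h4
        exact_mod_cast this
      have ha1 := h.ha
      have hb1 := h.hb
      have hpa : ¬ q ∣ a := fun hd => by
        have := Nat.le_of_dvd ha1 hd
        omega
      have hpb : ¬ q ∣ b := fun hd => by
        have := Nat.le_of_dvd hb1 hd
        omega
      have hs := sq_card a b Y q h3 (by omega) hpa hpb
      rw [← sum_filter, sum_const, nsmul_eq_mul]
      have hq0 : (0 : ℝ) < q := by exact_mod_cast h3.pos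
      have hYζ0 : (0 : ℝ) < (Y : ℝ) ^ ζ := by positivity
      calc _ ≤ (2 * ((Y : ℝ) / ((q : ℝ) ^ 2) + 1)) * L := mul_le_mul_of_nonneg_right hs hL0.le
        _ = 2 * L * (((Y : ℝ) / q + q)) * (1 / (q : ℝ)) := by
            field_simp
        _ ≤ 2 * L * ((Y : ℝ) ^ (1 - ζ) + (Y : ℝ) ^ υ) * (1 / (q : ℝ)) := by
            apply mul_le_mul_of_nonneg_right _ (by positivity)
            apply mul_le_mul_of_nonneg_left _ (by positivity)
            apply add_le_add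
            · rw [Real.rpow_sub hY0, Real.rpow_one]
              exact div_le_div_of_nonneg_left hY0.le hYζ0 h4
            · exact h5.le
    refine (sum_le_sum b1).trans ?_
    rw [← mul_sum]
    have h3 := harmonic_le_one_add_log Y
    rw [harmonic_eq_sum_Icc] at h3
    push_cast at h3
    have h4 : ∑ q ∈ pr Y ζ υ, 1 / (q : ℝ) ≤ 1 + L := by
      refine le_trans ?_ h3
      simp_rw [one_div]
      apply sum_le_sum_of_subset_of_nonneg
      · intro q hq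
        unfold pr at hq
        exact (mem_filter.1 hq).1
      · intro _ _ _
        positivity
    calc _ ≤ 2 * L * ((Y : ℝ) ^ (1 - ζ) + (Y : ℝ) ^ υ) * (1 + L) := by gcongr
      _ = _ := by ring
  linarith

open Classical in
/-- **The lower bound.** -/
theorem five {a b : ℕ} (h : Adm a b) : ∃ c : ℝ, 0 < c ∧ ∀ᶠ X : ℕ in atTop,
    c * X / Real.log X ^ 2 ≤
      (((Ioc X (2 * X)).filter (fun m : ℕ => Pr a b 5 ((m : ℝ) ^ (3 / 25 : ℝ)) m)).card : ℝ) := by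
  have hF : 1 ≤ (FF a b).natDegree := by rw [FF_deg h]; norm_num
  set τ : ℝ := 49 / 100 with hτ
  set ζ : ℝ := τ / 4 with hζ
  set υ : ℝ := 24 / 25 * τ with hυ
  set lam : ℝ := 8 / 9 with hlam
  obtain ⟨ε₁, η, f, hε₁, hε₁ζ, _, hη, hf, Y0, H⟩ := core3 (a + b + 2) τ ζ υ lam (lam / υ) (495 / 1000) 1
    (by rw [hζ, hτ]; norm_num) (by rw [hζ, hτ]; norm_num) (by rw [hζ, hτ]; norm_num)
    (by rw [hτ]; norm_num) (by rw [hζ, hυ, hτ]; norm_num) (by rw [hυ, hτ]; norm_num)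
    (by rw [hlam]; norm_num) (by rw [hlam, hυ, hτ]; norm_num)
    (le_of_eq (by rw [hυ, hτ, hlam]; norm_num))
    (cond_A τ lam (by rw [hτ]; norm_num) (by rw [hlam]; norm_num) (by rw [hlam]; norm_num))
    (by rw [hτ]; norm_num) (by norm_num)
  obtain ⟨Y1, hMer⟩ := mer_FF h ε₁ υ η hε₁ (by rw [hυ, hτ]; norm_num) hη
  obtain ⟨w, hw, hprod⟩ := prod_FF h
  set κ : ℕ := KF (FF a b) with hκ
  obtain ⟨CS, hCS, HSc⟩ := Pool.Agent.H732R2.B2.Sc_bound κ (Nat.cast_nonneg _)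
  obtain ⟨Y2, hErr⟩ := err_small (FF a b) hF υ (495 / 1000) 2 (by norm_num) (by norm_num)
    (by rw [hυ, hτ]; norm_num)
  set c1 : ℝ := f * w / 20 with hc1
  have hc10 : 0 < c1 := by positivity
  have hYt : Tendsto (fun X : ℕ => 2 * X) atTop atTop :=
    tendsto_id.const_mul_atTop' (by norm_num)
  have ev1 : ∀ᶠ Y : ℕ in atTop, max (8 / c1) 2 ≤ Real.log Y :=
    tendsto_natCast_atTop_atTop.eventually (Real.tendsto_log_atTop.eventually_ge_atTop _)
  have ev2 := polylog (8 / c1 * (10 * CS)) (2 * κ + 5) 1 (by norm_num)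
  have ev3 := polylog (8 / c1 * (2 * Real.log b)) 3 1 (by norm_num)
  have ev4 := polylog (16 / c1) 2 (1 / 2) (by norm_num)
  have ev5 := polylog (64 / c1) 3 (1 / 20) (by norm_num)
  have ev6 : ∀ᶠ Y : ℕ in atTop, (a : ℝ) + b + 3 ≤ (Y : ℝ) ^ (1 / 100 : ℝ) :=
    ((tendsto_rpow_atTop (by norm_num)).comp tendsto_natCast_atTop_atTop).eventually_ge_atTop _
  have evm : ∀ᶠ Y : ℕ in atTop, (Y : ℝ) / 20 ≤ ∑ m ∈ Icc 1 ⌊(Y : ℝ)⌋₊, al (Y : ℝ) m :=
    tendsto_natCast_atTop_atTop.eventually mass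
  refine ⟨c1 / 16, by positivity, ?_⟩
  filter_upwards [hYt.eventually (ev1.and (ev2.and (ev3.and (ev4.and (ev5.and (ev6.and evm)))))),
    eventually_ge_atTop (Y0 + Y1 + Y2 + 4)] with X hX hX0
  obtain ⟨f1, f2, f3, f4, f5, f6, fm⟩ := hX
  obtain ⟨Y, hY⟩ : ∃ Y : ℕ, Y = 2 * X := ⟨_, rfl⟩
  rw [← hY] at f1 f2 f3 f4 f5 f6 fm
  have f6' : (a : ℝ) + b + 3 ≤ (Y : ℝ) ^ (1 / 100 : ℝ) := f6
  have hX1 : 1 ≤ X := by omega
  have hYX : 3 ≤ Y := by omega
  have hYr : (3 : ℝ) ≤ Y := by exact_mod_cast hYX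
  have hY0 : (0 : ℝ) < Y := by linarith
  have hY1' : (1 : ℝ) ≤ Y := by linarith
  have hfl : ⌊(Y : ℝ)⌋₊ = Y := Nat.floor_natCast Y
  rw [hfl] at fm
  set L : ℝ := Real.log Y with hL
  have hL2 : 2 ≤ L := (le_max_right _ _).trans f1
  have hLc : 8 / c1 ≤ L := (le_max_left _ _).trans f1
  have hL0 : 0 < L := by linarith
  obtain ⟨c, g1, g2, g3, g4⟩ := H Y (by omega)
  have hPp : ∀ p ∈ PZ Y υ, p.Prime := by
    intro p hp
    unfold PZ at hp
    rw [mem_filter] at hp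
    exact hp.2.1
  -- the densities
  set hh : ℕ → ℝ := fun p => (rs (FF a b) 0 p : ℝ) / ((p : ℝ) - 1) with hhh
  have hh0 : ∀ p : ℕ, p.Prime → 0 ≤ hh p := by
    intro p hp
    have hp2 : (2 : ℝ) ≤ p := by exact_mod_cast hp.two_le
    exact div_nonneg (Nat.cast_nonneg _) (by linarith)
  have hh1 : ∀ p : ℕ, p.Prime → hh p ≤ 1 := by
    intro p hp
    have hp2 : (2 : ℝ) ≤ p := by exact_mod_cast hp.two_le
    have h2 := rs_le_pred (FF a b) 0 p hp
    have h3 : (rs (FF a b) 0 p : ℝ) ≤ (p : ℝ) - 1 := by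
      have : ((rs (FF a b) 0 p : ℕ) : ℝ) ≤ ((p - 1 : ℕ) : ℝ) := by exact_mod_cast h2
      rwa [Nat.cast_sub hp.one_le, Nat.cast_one] at this
    simp only [hhh]
    rw [div_le_one (by linarith)]
    exact h3
  have hPZp : ∀ (u : ℝ) (p : ℕ), p ∈ PZ Y u → p.Prime := by
    intro u p hp
    unfold PZ at hp
    rw [mem_filter] at hp
    exact hp.2.1
  have hV := g4 hh (fun p hp => hh0 p (hPZp _ p hp)) (fun p hp => hh1 p (hPZp _ p hp))
    (fun p hp hlt => by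
      have hp' := hPZp _ p hp
      have hp2 : (2 : ℝ) ≤ p := by exact_mod_cast hp'.two_le
      have ha1 := h.ha
      have hb1 := h.hb
      have hpa : ¬ p ∣ a := fun hd => by
        have := Nat.le_of_dvd ha1 hd
        omega
      have hpb : ¬ p ∣ b := fun hd => by
        have := Nat.le_of_dvd hb1 hd
        omega
      have h2 := rs_FF_le a b p hp' (by omega) hpa hpb
      simp only [hhh]
      apply div_le_div_of_nonneg_right _ (by linarith)
      have : rs (FF a b) 0 p ≤ a + b + 2 := by omega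
      exact_mod_cast this)
    (hMer Y (by omega))
  have hV2 : f * (w / L) ≤ VV (PZ Y υ) c hh :=
    (mul_le_mul_of_nonneg_left (hprod Y ε₁ hYX) hf.le).trans hV
  -- the level
  set D : ℕ := ⌊(Y : ℝ) ^ (495 / 1000 : ℝ)⌋₊ with hD
  have hDY : (D : ℝ) ≤ Y := by
    refine (Nat.floor_le (by positivity)).trans ?_
    calc (Y : ℝ) ^ (495 / 1000 : ℝ) ≤ (Y : ℝ) ^ (1 : ℝ) :=
          Real.rpow_le_rpow_of_exponent_le hY1' (by norm_num)
      _ = Y := Real.rpow_one _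
  have hDYn : D ≤ Y := by exact_mod_cast hDY
  set R : ℝ := 2 * L ^ 3 with hR
  have hRb : ∀ g : ℕ, 1 ≤ g → g ≤ D →
      ∑ b ∈ (Icc 1 Y).filter (fun b => ¬ b.Coprime g), |al (Y : ℝ) b| ≤ R := by
    intro g hg1 hgD
    have h0 := al_noncop (Y : ℝ) hY1' g hg1
    rw [hfl] at h0
    refine h0.trans ?_
    have h1 : Real.log g ≤ L := by
      apply Real.log_le_log (by exact_mod_cast hg1)
      exact le_trans (by exact_mod_cast hgD) hDY
    have h2 : 0 ≤ Real.log g := Real.log_natCast_nonneg g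
    calc 2 * Real.log g * Real.log (Y : ℝ) ^ 2 ≤ 2 * L * L ^ 2 := by gcongr
      _ = R := by rw [hR]; ring
  have hF0 : ((FF a b).eval 0).natAbs = b := by
    rw [FF_eval]
    simp
  have hR' : ∑ m ∈ (Icc 1 Y).filter (fun m => ¬ m.Coprime ((FF a b).eval 0).natAbs), |al (Y : ℝ) m| ≤
      2 * Real.log b * L ^ 2 := by
    rw [hF0]
    have h0 := al_noncop (Y : ℝ) hY1' b h.hb
    rw [hfl] at h0
    exact h0
  have hlow := lowW tw_true (FF a b) hF Y (by omega) (PZ Y υ) hPp c D (5 * L) R (2 * Real.log b * L ^ 2)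
    (WW Y ζ υ lam (lam / υ)) (by positivity) g1
    (fun T hT hcT => Nat.le_floor (g2 T hT hcT)) g3
    (WW_le_one Y ζ υ lam (by rw [hυ, hτ]; norm_num) (by rw [hlam]; norm_num)) hRb (by positivity) hR'
  have herr := (abs_le.1 (hErr Y (by omega) c g1 g2)).1
  have hSc : Sc κ D ≤ CS * L ^ (2 * κ) := Sc_le κ D Y CS hCS HSc hYX hDYn
  have hup := upperW h X Y 5 hY hX1 ζ (3 / 25) υ lam (201 / 100)
    (by rw [hζ, hτ]; norm_num) (by rw [hζ, hτ]; norm_num) (by norm_num)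
    (by rw [hζ, hυ, hτ]; norm_num) (by rw [hυ, hτ]; norm_num) (by rw [hlam]; norm_num)
    (by rw [hlam, hυ, hτ]; norm_num)
    (by
      have e : (Y : ℝ) ^ (201 / 100 : ℝ) = (Y : ℝ) ^ (1 / 100 : ℝ) * (Y : ℝ) ^ 2 := by
        rw [← Real.rpow_natCast, ← Real.rpow_add hY0]
        norm_num
      rw [e]
      apply mul_le_mul_of_nonneg_right _ (by positivity)
      linarith [f6'])
    (by
      have e : (Y : ℝ) ^ (1 / 100 : ℝ) ≤ (Y : ℝ) ^ ζ :=
        Real.rpow_le_rpow_of_exponent_le hY1' (by rw [hζ, hτ]; norm_num)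
      exact lt_of_lt_of_le (by linarith) (f6'.trans e))
  set CC : ℝ := (((Ioc X (2 * X)).filter (fun m : ℕ => Pr a b 5 ((m : ℝ) ^ (3 / 25 : ℝ)) m)).card : ℝ)
    with hCC
  -- the main term
  have hmain : c1 * (Y / L) ≤ (∑ m ∈ Icc 1 Y, al (Y : ℝ) m) * VV (PZ Y υ) c hh := by
    have h1 : 0 ≤ f * (w / L) := by positivity
    calc c1 * (Y / L) = (Y / 20) * (f * (w / L)) := by rw [hc1]; ring
      _ ≤ (∑ m ∈ Icc 1 Y, al (Y : ℝ) m) * (f * (w / L)) := mul_le_mul_of_nonneg_right fm h1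
      _ ≤ _ := by
          apply mul_le_mul_of_nonneg_left hV2
          exact sum_nonneg fun m hm => al_nonneg _ hY0 m (mem_Icc.1 hm).1
  -- the error terms
  set U : ℝ := c1 / 8 * (Y / L) with hU
  have hU0 : 0 < U := by positivity
  have r1 : (Y : ℝ) / L ^ 2 ≤ U := by
    rw [hU, div_mul_div_comm, div_le_div_iff₀ (by positivity) (by positivity)]
    rw [div_le_iff₀ hc10] at hLc
    calc (Y : ℝ) * (8 * L) ≤ Y * ((L * c1) * L) := by gcongr
      _ = c1 * Y * L ^ 2 := by ring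
  have r2 : 5 * L * R * Sc κ D ≤ U := by
    rw [Real.rpow_one] at f2
    rw [hU, ← mul_div_assoc, le_div_iff₀ hL0]
    calc 5 * L * R * Sc κ D * L ≤ 5 * L * R * (CS * L ^ (2 * κ)) * L := by gcongr
      _ = c1 / 8 * (8 / c1 * (10 * CS) * L ^ (2 * κ + 5)) := by
          rw [hR]
          field_simp
          ring
      _ ≤ c1 / 8 * Y := mul_le_mul_of_nonneg_left f2 (by positivity)
  have r3 : 2 * Real.log b * L ^ 2 ≤ U := by
    rw [Real.rpow_one] at f3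
    rw [hU, ← mul_div_assoc, le_div_iff₀ hL0]
    calc 2 * Real.log b * L ^ 2 * L = c1 / 8 * (8 / c1 * (2 * Real.log b) * L ^ 3) := by
          field_simp
      _ ≤ c1 / 8 * Y := mul_le_mul_of_nonneg_left f3 (by positivity)
  have hsqY : √(Y : ℝ) = (Y : ℝ) ^ (1 / 2 : ℝ) := Real.sqrt_eq_rpow _
  have r4 : 2 * √(Y : ℝ) * L ≤ U := by
    rw [hU, ← mul_div_assoc, le_div_iff₀ hL0, hsqY]
    calc 2 * (Y : ℝ) ^ (1 / 2 : ℝ) * L * L = c1 / 8 * (16 / c1 * L ^ 2 * (Y : ℝ) ^ (1 / 2 : ℝ)) := by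
          field_simp
          ring
      _ ≤ c1 / 8 * ((Y : ℝ) ^ (1 / 2 : ℝ) * (Y : ℝ) ^ (1 / 2 : ℝ)) := by gcongr
      _ = c1 / 8 * Y := by
          rw [← Real.rpow_add hY0]
          norm_num
  have r5 : 2 * L * (1 + L) * ((Y : ℝ) ^ (1 - ζ) + (Y : ℝ) ^ υ) ≤ U := by
    rw [hU, ← mul_div_assoc, le_div_iff₀ hL0]
    have h1 : (Y : ℝ) ^ (1 - ζ) ≤ (Y : ℝ) ^ (19 / 20 : ℝ) :=
      Real.rpow_le_rpow_of_exponent_le hY1' (by rw [hζ, hτ]; norm_num)
    have h2 : (Y : ℝ) ^ υ ≤ (Y : ℝ) ^ (19 / 20 : ℝ) :=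
      Real.rpow_le_rpow_of_exponent_le hY1' (by rw [hυ, hτ]; norm_num)
    calc 2 * L * (1 + L) * ((Y : ℝ) ^ (1 - ζ) + (Y : ℝ) ^ υ) * L ≤
        2 * L * (L + L) * ((Y : ℝ) ^ (19 / 20 : ℝ) + (Y : ℝ) ^ (19 / 20 : ℝ)) * L := by
          gcongr
          linarith
      _ = c1 / 8 * (64 / c1 * L ^ 3 * (Y : ℝ) ^ (19 / 20 : ℝ)) := by
          field_simp
          ring
      _ ≤ c1 / 8 * ((Y : ℝ) ^ (1 / 20 : ℝ) * (Y : ℝ) ^ (19 / 20 : ℝ)) := by gcongr
      _ = c1 / 8 * Y := by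
          rw [← Real.rpow_add hY0]
          norm_num
  have hc8 : c1 * (Y / L) = 8 * U := by rw [hU]; ring
  have hlow2 : ∑ T ∈ (PZ Y υ).powerset, c T * Eg (FF a b) Y (al (Y : ℝ)) 0 (∏ p ∈ T, p) +
      (∑ m ∈ Icc 1 Y, al (Y : ℝ) m) * VV (PZ Y υ) c hh -
      (5 * L * R * Sc κ D + 2 * Real.log b * L ^ 2) ≤
      ∑ m ∈ Icc 1 Y, al (Y : ℝ) m *
        max 0 (WW Y ζ υ lam (lam / υ) ((FF a b).eval (m : ℤ)).natAbs) := hlow
  have herr2 : -((Y : ℝ) / L ^ 2) ≤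
      ∑ T ∈ (PZ Y υ).powerset, c T * Eg (FF a b) Y (al (Y : ℝ)) 0 (∏ p ∈ T, p) := herr
  have hup2 : ∑ m ∈ Icc 1 Y, al (Y : ℝ) m *
        max 0 (WW Y ζ υ lam (lam / υ) ((FF a b).eval (m : ℤ)).natAbs) ≤
      CC * L + 2 * √(Y : ℝ) * L + 2 * L * (1 + L) * ((Y : ℝ) ^ (1 - ζ) + (Y : ℝ) ^ υ) := hup
  have hfin : 3 * U ≤ CC * L := by
    rw [hc8] at hmain
    exact fin_aux hlow2 herr2 hup2 hmain r1 r2 r3 r4 r5
  -- conclusion
  have hXr : (X : ℝ) = Y / 2 := by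
    rw [hY]
    push_cast
    ring
  have hX4 : (4 : ℝ) ≤ X := by
    have : 4 ≤ X := by omega
    exact_mod_cast this
  have hlogX : L ≤ 2 * Real.log X := by
    have h1 : (Y : ℝ) ≤ (X : ℝ) ^ 2 := by
      rw [hY]
      push_cast
      nlinarith
    have h2 := Real.log_le_log hY0 h1
    rw [Real.log_pow] at h2
    push_cast at h2
    exact h2
  have hlX0 : 0 < Real.log X := by linarith
  have h3 : c1 / 16 * (X : ℝ) / Real.log X ^ 2 ≤ U / L := by
    have h4 : L ^ 2 ≤ 4 * Real.log X ^ 2 := by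
      calc L ^ 2 ≤ (2 * Real.log X) ^ 2 := pow_le_pow_left₀ hL0.le hlogX 2
        _ = _ := by ring
    have h5 : (X : ℝ) / (2 * Real.log X ^ 2) ≤ Y / L ^ 2 := by
      rw [div_le_div_iff₀ (by positivity) (by positivity)]
      have hX0' : (0 : ℝ) ≤ X := by linarith
      calc (X : ℝ) * L ^ 2 ≤ X * (4 * Real.log X ^ 2) := mul_le_mul_of_nonneg_left h4 hX0'
        _ = Y * (2 * Real.log X ^ 2) := by
            have : (Y : ℝ) = 2 * X := by linarith
            rw [this]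
            ring
    calc c1 / 16 * (X : ℝ) / Real.log X ^ 2 = c1 / 8 * ((X : ℝ) / (2 * Real.log X ^ 2)) := by
          field_simp
          ring
      _ ≤ c1 / 8 * (Y / L ^ 2) := mul_le_mul_of_nonneg_left h5 (by positivity)
      _ = U / L := by
          rw [hU]
          field_simp
  have h7 : U / L ≤ CC := by
    rw [div_le_iff₀ hL0]
    linarith
  exact h3.trans h7

end Pool.Agent.K9h53.P5
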