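import Pool.Agent.Y882.GP.Few

/-! The error term for one polynomial at prime arguments (adapted from `Y882/GP/Tot.lean`, `Few.lean`). -/

set_option autoImplicit false

open Finset Polynomial Filter Topology

namespace Pool.Agent.K9h53.P5

open Pool.Agent.Y882
open Pool.Agent.Y882.GP
open Pool.Agent.W23.DC
open Pool.Agent.H410R2
open Pool.Agent.Helper112 Pool.Agent.Helper112.BLB
open Pool.Agent.H732R2.B2 (Sc card_prim)
open Pool.Agent.Y882.PX (ro KF)

open Classical in
/-- the error term for one polynomial -/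
theorem err_one (hEG : St_EG) (hTW : St_TW) (F : ℤ[X])
    (hF : 1 ≤ F.natDegree) (X D : ℕ) (α : ℕ → ℝ) (k : ℤ)
    (hD1 : 1 ≤ D) (c : ℕ → ℝ) (K : ℝ) (hK : 0 ≤ K) (hc : ∀ d, |c d| ≤ K)
    (hsq : ∀ d, c d ≠ 0 → Squarefree d) (R : ℝ)
    (hR : ∀ g : ℕ, 1 ≤ g → g ≤ D → ∑ b ∈ (Icc 1 X).filter (fun b => ¬ b.Coprime g), |α b| ≤ R)
    (B : ℝ) (hB : ∀ f : ℕ, f ≤ D → Squarefree f → (KF F : ℝ) ^ f.primeFactors.card ≤ B) :
    |∑ d ∈ Icc 1 D, c d * Eg F X α k d| ≤
      K * (Sc (KF F) D * (∑ f ∈ Icc 2 D, ((KF F : ℝ) ^ f.primeFactors.card /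
        (Nat.totient f : ℝ)) * PA X α f + D * (B * R))) := by
  have hB0 : 0 ≤ B := by
    have := hB 1 hD1 squarefree_one
    simp at this
    linarith
  set S : Finset ℤ := {k} with hS
  have hScard : (S.card : ℝ) = 1 := by rw [hS, card_singleton]; norm_num
  set κ : ℝ := (KF F : ℝ) with hκ
  have hκ0 : 0 ≤ κ := Nat.cast_nonneg _
  set G : ℕ → ℕ → ℝ := fun g f => if Squarefree f then (1 / (Nat.totient g : ℝ)) *
    ((1 / (Nat.totient f : ℝ)) * PW F X α S g f) else 0 with hG
  have hG0 : ∀ g f, 0 ≤ G g f := by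
    intro g f
    simp only [hG]
    split_ifs
    · exact mul_nonneg (by positivity) (mul_nonneg (by positivity) (PW_nonneg _ _ _ _ _ _))
    · exact le_rfl
  set M : Finset ℕ := (Icc 1 D).filter Squarefree with hM
  have s1 : |∑ d ∈ Icc 1 D, c d * Eg F X α k d| ≤
      K * ∑ d ∈ M, ∑ f ∈ d.divisors.filter (fun f => f ≠ 1), G (d / f) f := by
    have h1 : ∑ d ∈ Icc 1 D, c d * Eg F X α k d =
        ∑ d ∈ M, c d * Eg F X α k d := by
      rw [hM, sum_filter]
      apply sum_congr rfl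
      intro d _
      split_ifs with h
      · rfl
      · have : c d = 0 := by
          by_contra hne
          exact h (hsq d hne)
        rw [this, zero_mul]
    rw [h1, mul_sum]
    refine (abs_sum_le_sum_abs _ _).trans (sum_le_sum fun d hd => ?_)
    rw [hM, mem_filter, mem_Icc] at hd
    rw [abs_mul]
    apply mul_le_mul (hc d) _ (abs_nonneg _) hK
    have heg := eg_sum hEG hTW F X α S d hd.2
    rw [hS, sum_singleton, ← hS] at heg
    refine heg.trans (sum_le_sum fun f hf => ?_)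
    rw [mem_filter, Nat.mem_divisors] at hf
    obtain ⟨⟨⟨g, rfl⟩, -⟩, hf1⟩ := hf
    have hf0 : 0 < f := Nat.pos_of_ne_zero (by rintro rfl; simp at hd)
    have hg0 : 0 < g := Nat.pos_of_ne_zero (by rintro rfl; simp at hd)
    rw [Nat.mul_div_cancel_left g hf0]
    have hcop2 : f.Coprime g := Nat.coprime_of_squarefree_mul hd.2
    have hsf : Squarefree f := hd.2.squarefree_of_dvd (Dvd.intro g rfl)
    rw [Nat.totient_mul hcop2]
    apply le_of_eq
    simp only [hG, if_pos hsf]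
    push_cast
    have htf : (0 : ℝ) < Nat.totient f := by exact_mod_cast Nat.totient_pos.mpr hf0
    have htg0 : (0 : ℝ) < Nat.totient g := by exact_mod_cast Nat.totient_pos.mpr hg0
    field_simp
  have s4 : ∑ d ∈ M, ∑ f ∈ d.divisors.filter (fun f => f ≠ 1), G (d / f) f ≤
      ∑ g ∈ M, ∑ f ∈ Icc 2 D, G g f := by
    rw [sum_sigma', ← sum_product']
    have e6 : ∑ x ∈ M.sigma (fun m => m.divisors.filter (fun f => f ≠ 1)), G (x.1 / x.2) x.2 =
        ∑ p ∈ (M.sigma (fun m => m.divisors.filter (fun f => f ≠ 1))).image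
          (fun x : (_ : ℕ) × ℕ => (x.1 / x.2, x.2)), G p.1 p.2 := by
      rw [sum_image]
      rintro ⟨m, f⟩ hx ⟨m', f'⟩ hx' heq
      simp only [Finset.mem_coe, mem_sigma, mem_filter, Nat.mem_divisors] at hx hx'
      simp only [Prod.mk.injEq] at heq
      obtain ⟨h7, h8⟩ := heq
      subst h8
      have : m = m' := by
        rw [← Nat.div_mul_cancel hx.2.1.1, h7, Nat.div_mul_cancel hx'.2.1.1]
      subst this
      rfl
    rw [e6]
    apply sum_le_sum_of_subset_of_nonneg
    · intro p hp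
      rw [mem_image] at hp
      obtain ⟨⟨m, f⟩, hx, rfl⟩ := hp
      simp only [mem_sigma, mem_filter, Nat.mem_divisors] at hx
      obtain ⟨hm, ⟨hfm, hm0⟩, hf1⟩ := hx
      rw [hM, mem_filter, mem_Icc] at hm
      have hf0 : 0 < f := Nat.pos_of_dvd_of_pos hfm hm.1.1
      simp only [mem_product, mem_Icc, hM, mem_filter]
      refine ⟨⟨⟨Nat.div_pos (Nat.le_of_dvd hm.1.1 hfm) hf0, (Nat.div_le_self m f).trans hm.1.2⟩,
        ?_⟩, by omega, (Nat.le_of_dvd hm.1.1 hfm).trans hm.1.2⟩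
      exact hm.2.squarefree_of_dvd (Nat.div_dvd_of_dvd hfm)
    · intro p _ _
      exact hG0 _ _
  set BVs : ℝ := ∑ f ∈ Icc 2 D, (κ ^ f.primeFactors.card / (Nat.totient f : ℝ)) * PA X α f
    with hBVs
  have s5 : ∀ g ∈ M, ∑ f ∈ Icc 2 D, G g f ≤ (κ ^ g.primeFactors.card / (Nat.totient g : ℝ)) *
      (BVs + D * (B * R)) := by
    intro g hg
    rw [hM, mem_filter, mem_Icc] at hg
    have hR0 : 0 ≤ R := (sum_nonneg fun b _ => abs_nonneg _).trans (hR g hg.1.1 hg.1.2)
    have hGe : ∀ f, G g f = (1 / (Nat.totient g : ℝ)) * ((1 / (Nat.totient f : ℝ)) *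
        (if Squarefree f then PW F X α S g f else 0)) := by
      intro f
      simp only [hG]
      split_ifs <;> simp
    rw [sum_congr rfl fun f _ => hGe f, ← mul_sum]
    have hexp : (κ ^ g.primeFactors.card / (Nat.totient g : ℝ)) *
      (BVs + D * (B * R)) = (1 / (Nat.totient g : ℝ)) *
      (κ ^ g.primeFactors.card * (BVs + D * (B * R))) := by ring
    rw [hexp]
    apply mul_le_mul_of_nonneg_left _ (by positivity)
    set Pf : ℕ → ℝ := fun f => if Squarefree f then PW F X α S g f else 0 with hPf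
    have v1 : ∀ f ∈ Icc 2 D, (1 / (Nat.totient f : ℝ)) * Pf f ≤
        κ ^ g.primeFactors.card * ((κ ^ f.primeFactors.card /
            (Nat.totient f : ℝ)) * PA X α f + B * R) := by
      intro f hf
      rw [mem_Icc] at hf
      have htf : (0 : ℝ) < Nat.totient f := by
        exact_mod_cast Nat.totient_pos.mpr (by omega)
      have hPA : 0 ≤ PA X α f := sum_nonneg fun _ _ => norm_nonneg _
      simp only [hPf]
      split_ifs with hsf
      · have v2 : PW F X α S g f ≤ (κ ^ g.primeFactors.card *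
              κ ^ f.primeFactors.card) * (PA X α f + Nat.totient f * R) := by
          unfold PW PA
          calc ∑ ψ ∈ (univ : Finset (DirichletCharacter ℂ f)).filter (fun χ => χ.IsPrimitive),
                ‖A X (res g α) f ψ‖ * ‖WW F (fun k => (rs F k g : ℝ)) S f ψ‖ ≤
                ∑ ψ ∈ (univ : Finset (DirichletCharacter ℂ f)).filter (fun χ => χ.IsPrimitive),
                (‖A X α f ψ‖ + R) * (S.card * (κ ^ g.primeFactors.card *
                  κ ^ f.primeFactors.card)) := by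
                  apply sum_le_sum
                  intro ψ _
                  apply mul_le_mul _ (WW_le F hF S g f hg.2 hsf ψ) (norm_nonneg _)
                    (by positivity)
                  exact (A_res_le X g f α ψ).trans (add_le_add le_rfl (hR g hg.1.1 hg.1.2))
              _ = (κ ^ g.primeFactors.card * κ ^ f.primeFactors.card) *
                  (∑ ψ ∈ (univ : Finset (DirichletCharacter ℂ f)).filter
                  (fun χ => χ.IsPrimitive), ‖A X α f ψ‖ +
                  (((univ : Finset (DirichletCharacter ℂ f)).filter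
                  (fun χ => χ.IsPrimitive)).card : ℝ) * R) := by
                  rw [← sum_mul, sum_add_distrib, sum_const, nsmul_eq_mul, hScard]
                  ring
              _ ≤ _ := by
                  apply mul_le_mul_of_nonneg_left _ (by positivity)
                  apply add_le_add le_rfl
                  apply mul_le_mul_of_nonneg_right _ hR0
                  exact card_prim f (by omega)
        have hBf : κ ^ f.primeFactors.card ≤ B := hB f hf.2 hsf
        calc (1 / (Nat.totient f : ℝ)) * PW F X α S g f ≤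
              (1 / (Nat.totient f : ℝ)) * ((κ ^ g.primeFactors.card *
              κ ^ f.primeFactors.card) * (PA X α f + Nat.totient f * R)) :=
                mul_le_mul_of_nonneg_left v2 (by positivity)
            _ = κ ^ g.primeFactors.card * ((κ ^ f.primeFactors.card /
              (Nat.totient f : ℝ)) * PA X α f + κ ^ f.primeFactors.card * R) := by
                field_simp
            _ ≤ _ := by
                apply mul_le_mul_of_nonneg_left _ (by positivity)
                apply add_le_add le_rfl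
                exact mul_le_mul_of_nonneg_right hBf hR0
      · rw [mul_zero]
        positivity
    refine (sum_le_sum v1).trans ?_
    rw [← mul_sum, sum_add_distrib, sum_const, nsmul_eq_mul, Nat.card_Icc]
    apply mul_le_mul_of_nonneg_left _ (by positivity)
    apply add_le_add le_rfl
    apply mul_le_mul_of_nonneg_right _ (by positivity)
    have : D + 1 - 2 ≤ D := by omega
    exact_mod_cast this
  refine s1.trans (mul_le_mul_of_nonneg_left ?_ hK)
  refine s4.trans ((sum_le_sum s5).trans ?_)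
  rw [← sum_mul]
  have s6 : ∑ g ∈ M, (κ ^ g.primeFactors.card / (Nat.totient g : ℝ)) = Sc κ D := rfl
  rw [s6]

open Classical in
/-- the error term of the sieve at prime arguments, level below `1 / 2` -/
theorem err_small (F : ℤ[X]) (hF : 1 ≤ F.natDegree) (υ τ' : ℝ) (U : ℕ)
    (hτ0 : 0 < τ') (hτ1 : τ' < 1 / 2) (hυ : υ ≤ 1) : ∃ Y0 : ℕ, ∀ Y : ℕ, Y0 ≤ Y →
      ∀ c : Finset ℕ → ℝ, (∀ T, |c T| ≤ 5 * Real.log Y) →
      (∀ T ⊆ PZ Y υ, c T ≠ 0 → ((∏ p ∈ T, p : ℕ) : ℝ) ≤ (Y : ℝ) ^ τ') →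
      |∑ T ∈ (PZ Y υ).powerset, c T * Eg F Y (al (Y : ℝ)) 0 (∏ p ∈ T, p)| ≤
        (Y : ℝ) / Real.log Y ^ U := by
  set κ : ℕ := KF F with hκ
  have hκ1 : 1 ≤ κ := hF.trans (le_max_left _ _)
  set δ' : ℝ := (1 / 2 - τ') / 2 with hδ'
  have hδ'0 : 0 < δ' := by rw [hδ']; linarith
  set η : ℝ := (1 / 2 - τ') / 2 with hη
  have hη0 : 0 < η := by rw [hη]; linarith
  set A' : ℕ := U + 2 * κ + 2 with hA'
  obtain ⟨CS, hCS, HSc⟩ := Pool.Agent.H732R2.B2.Sc_bound κ (Nat.cast_nonneg _)
  obtain ⟨C, hC1, HC⟩ := PX.pow_card_le κ η hη0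
  obtain ⟨X1, HBV⟩ := eventually_atTop.1 (bv_alc bv_true κ (by exact_mod_cast hκ1) δ' hδ'0 A')
  have hC0 : 0 < C := by linarith
  have ev0 : ∀ᶠ Y : ℕ in atTop, max X1 16 ≤ (Y : ℝ) :=
    tendsto_natCast_atTop_atTop.eventually_ge_atTop _
  have ev1 : ∀ᶠ Y : ℕ in atTop, 2 ≤ (Y : ℝ) ^ δ' :=
    tendsto_natCast_atTop_atTop.eventually ((tendsto_rpow_atTop hδ'0).eventually_ge_atTop _)
  have ev2 : ∀ᶠ Y : ℕ in atTop, max (40 * CS * 2 ^ A') 2 ≤ Real.log Y :=
    tendsto_natCast_atTop_atTop.eventually (Real.tendsto_log_atTop.eventually_ge_atTop _)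
  have ev3 := polylog (20 * CS * C) (2 * κ + 4 + U) (1 / 2) (by norm_num)
  obtain ⟨Y2, HY2⟩ := eventually_atTop.1 (ev0.and (ev1.and (ev2.and (ev3.and
    (eventually_ge_atTop 3)))))
  refine ⟨Y2, ?_⟩
  intro Y hY c hc1 hc2
  obtain ⟨f0, f1, f2, f3, f8⟩ := HY2 Y hY
  set L : ℝ := Real.log Y with hL
  have hYr : (3 : ℝ) ≤ Y := by exact_mod_cast f8
  have hY1 : (1 : ℝ) ≤ Y := by linarith
  have hY0 : (0 : ℝ) < Y := by linarith
  have hL2 : 2 ≤ L := (le_max_right _ _).trans f2
  have hL0 : 0 < L := by linarith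
  have hx16 : 16 ≤ (Y : ℝ) := (le_max_right _ _).trans f0
  have hxX1 : X1 ≤ (Y : ℝ) := (le_max_left _ _).trans f0
  have hfl : ⌊(Y : ℝ)⌋₊ = Y := Nat.floor_natCast Y
  -- the level
  set D : ℕ := ⌊(Y : ℝ) ^ τ'⌋₊ with hD
  have hDle : (D : ℝ) ≤ (Y : ℝ) ^ τ' := Nat.floor_le (by positivity)
  have hD1 : 1 ≤ D := by
    apply Nat.le_floor
    push_cast
    exact Real.one_le_rpow hY1 hτ0.le
  have hDY : (D : ℝ) ≤ Y := by
    refine hDle.trans ?_
    calc (Y : ℝ) ^ τ' ≤ (Y : ℝ) ^ (1 : ℝ) := Real.rpow_le_rpow_of_exponent_le hY1 (by linarith)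
      _ = Y := Real.rpow_one _
  have hDYn : D ≤ Y := by exact_mod_cast hDY
  have hDF : (D : ℝ) ≤ ((Y : ℝ) / 2) ^ (1 / 2 - δ') := by
    refine hDle.trans ?_
    rw [Real.div_rpow hY0.le (by norm_num), le_div_iff₀ (by positivity)]
    calc (Y : ℝ) ^ τ' * 2 ^ (1 / 2 - δ') ≤ (Y : ℝ) ^ τ' * 2 := by
          apply mul_le_mul_of_nonneg_left _ (by positivity)
          calc (2 : ℝ) ^ (1 / 2 - δ') ≤ 2 ^ (1 : ℝ) :=
                Real.rpow_le_rpow_of_exponent_le (by norm_num) (by linarith)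
            _ = 2 := Real.rpow_one _
      _ ≤ (Y : ℝ) ^ τ' * (Y : ℝ) ^ δ' := mul_le_mul_of_nonneg_left f1 (by positivity)
      _ = (Y : ℝ) ^ (1 / 2 - δ') := by
          rw [← Real.rpow_add hY0]
          congr 1
          rw [hδ']
          ring
  have hlD : Real.log D ≤ L := Real.log_le_log (by exact_mod_cast hD1) hDY
  have hlD0 : 0 ≤ Real.log D := Real.log_natCast_nonneg D
  have hSc : Sc κ D ≤ CS * L ^ (2 * κ) := Sc_le κ D Y CS hCS HSc f8 hDYn
  have hSc0 : 0 ≤ Sc (κ : ℝ) D := by unfold Sc; positivity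
  -- bounds for the noncoprime terms
  set R : ℝ := 2 * L ^ 3 with hR
  have hRb : ∀ g : ℕ, 1 ≤ g → g ≤ D →
      ∑ b ∈ (Icc 1 Y).filter (fun b => ¬ b.Coprime g), |al (Y : ℝ) b| ≤ R := by
    intro g hg1 hgD
    have h0 := al_noncop (Y : ℝ) hY1 g hg1
    rw [hfl] at h0
    refine h0.trans ?_
    have h1 : Real.log g ≤ L := (Real.log_le_log (by exact_mod_cast hg1)
      (by exact_mod_cast hgD)).trans hlD
    have h2 : 0 ≤ Real.log g := Real.log_natCast_nonneg g
    calc 2 * Real.log g * Real.log (Y : ℝ) ^ 2 ≤ 2 * L * L ^ 2 := by gcongr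
      _ = R := by rw [hR]; ring
  set B : ℝ := C * (Y : ℝ) ^ η with hB
  have hB0 : 0 < B := by positivity
  have hBb : ∀ f : ℕ, f ≤ D → Squarefree f → (KF F : ℝ) ^ f.primeFactors.card ≤ B := by
    intro f hf hsf
    refine (HC f.primeFactors (fun p hp => Nat.prime_of_mem_primeFactors hp)).trans ?_
    rw [Nat.prod_primeFactors_of_squarefree hsf]
    apply mul_le_mul_of_nonneg_left _ hC0.le
    apply Real.rpow_le_rpow (Nat.cast_nonneg _) _ hη0.le
    exact le_trans (by exact_mod_cast hf) hDY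
  set G : ℝ := (Y : ℝ) / L ^ U with hG
  have hG0 : 0 < G := by positivity
  set BVs : ℝ := ∑ f ∈ Icc 2 D, ((κ : ℝ) ^ f.primeFactors.card / (Nat.totient f : ℝ)) *
    PA Y (al (Y : ℝ)) f with hBVs
  have hBV := HBV (Y : ℝ) hxX1 D hDF (by rw [hδ']; linarith)
  rw [hfl] at hBV
  have hlx2 : L / 2 ≤ Real.log ((Y : ℝ) / 2) := by
    have h1 : √(Y : ℝ) ≤ Y / 2 := by
      rw [Real.sqrt_le_left (by positivity)]
      nlinarith
    have h5 := Real.log_le_log (by positivity) h1
    rw [Real.log_sqrt hY0.le] at h5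
    exact h5
  have hPp : ∀ p ∈ PZ Y υ, p.Prime := by
    intro p hp
    unfold PZ at hp
    rw [mem_filter] at hp
    exact hp.2.1
  have herr := err_one eg_true tw_true F hF Y D (al (Y : ℝ)) 0 hD1
    (cN (PZ Y υ) c) (5 * L) (by positivity) (by
      intro d
      unfold cN
      split_ifs
      · exact hc1 _
      · rw [abs_zero]; positivity) (by
      intro d hd
      unfold cN at hd
      by_contra h
      rw [if_neg (fun h2 => h h2.1)] at hd
      exact hd rfl) R hRb B hBb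
  have hcD : ∀ T ⊆ PZ Y υ, c T ≠ 0 → ∏ p ∈ T, p ≤ D := by
    intro T hT hcT
    exact Nat.le_floor (hc2 T hT hcT)
  rw [conv (PZ Y υ) hPp c D hcD (fun d => Eg F Y (al (Y : ℝ)) 0 d)] at herr
  refine herr.trans ?_
  have h1 : BVs ≤ 4 * Y * (2 ^ A' / L ^ A') := by
    refine hBV.trans ?_
    have h2 : (L / 2) ^ A' ≤ Real.log ((Y : ℝ) / 2) ^ A' := pow_le_pow_left₀ (by positivity) hlx2 _
    calc 4 * (Y : ℝ) / Real.log ((Y : ℝ) / 2) ^ A' ≤ 4 * Y / (L / 2) ^ A' :=
          div_le_div_of_nonneg_left (by positivity) (by positivity) h2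
      _ = _ := by
          rw [div_pow]
          field_simp
  have hBVs0 : 0 ≤ BVs := by
    rw [hBVs]
    apply sum_nonneg
    intro f _
    unfold PA
    positivity
  have h2 : 5 * L * (Sc κ D * BVs) ≤ G / 2 := by
    have h4 : 40 * CS * 2 ^ A' ≤ L := (le_max_left _ _).trans f2
    calc 5 * L * (Sc κ D * BVs) ≤
          5 * L * (CS * L ^ (2 * κ) * (4 * Y * (2 ^ A' / L ^ A'))) := by
          gcongr
      _ = (40 * CS * 2 ^ A') * (Y / 2 * (L ^ (2 * κ + 1) / L ^ A')) := by ring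
      _ ≤ L * (Y / 2 * (L ^ (2 * κ + 1) / L ^ A')) :=
          mul_le_mul_of_nonneg_right h4 (by positivity)
      _ = G / 2 := by
          rw [hG, hA']
          have : L ^ (U + 2 * κ + 2) = L ^ U * L ^ (2 * κ + 1) * L := by ring
          rw [this]
          field_simp
  have h4 : 5 * L * (Sc κ D * (D * (B * R))) ≤ G / 2 := by
    have h5 : 20 * CS * C * L ^ (2 * κ + 4 + U) ≤ (Y : ℝ) ^ (1 / 2 : ℝ) := f3
    have h6 : 5 * L * (Sc κ D * (D * (B * R))) ≤
        10 * CS * C * L ^ (2 * κ + 4) * (Y : ℝ) ^ (1 / 2 : ℝ) := by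
      rw [hR, hB]
      calc 5 * L * (Sc κ D * (D * (C * (Y : ℝ) ^ η * (2 * L ^ 3)))) ≤
          5 * L * (CS * L ^ (2 * κ) * ((Y : ℝ) ^ τ' * (C * (Y : ℝ) ^ η * (2 * L ^ 3)))) := by
            gcongr
        _ = 10 * CS * C * L ^ (2 * κ + 4) * ((Y : ℝ) ^ τ' * (Y : ℝ) ^ η) := by ring
        _ ≤ _ := by
            apply mul_le_mul_of_nonneg_left _ (by positivity)
            rw [← Real.rpow_add hY0]
            apply Real.rpow_le_rpow_of_exponent_le hY1
            rw [hη]
            linarith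
    refine h6.trans ?_
    rw [hG, div_div, le_div_iff₀ (by positivity)]
    calc 10 * CS * C * L ^ (2 * κ + 4) * (Y : ℝ) ^ (1 / 2 : ℝ) * (L ^ U * 2) =
        (20 * CS * C * L ^ (2 * κ + 4 + U)) * (Y : ℝ) ^ (1 / 2 : ℝ) := by
          rw [pow_add]
          ring
      _ ≤ (Y : ℝ) ^ (1 / 2 : ℝ) * (Y : ℝ) ^ (1 / 2 : ℝ) := by gcongr
      _ = Y := by
          rw [← Real.rpow_add hY0]
          norm_num
  calc 5 * L * (Sc (KF F) D * (∑ f ∈ Icc 2 D, ((KF F : ℝ) ^ f.primeFactors.card /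
        (Nat.totient f : ℝ)) * PA Y (al (Y : ℝ)) f + D * (B * R))) =
      5 * L * (Sc κ D * BVs) + 5 * L * (Sc κ D * (D * (B * R))) := by
        rw [hBVs, hκ]
        ring
    _ ≤ G := by linarith

end Pool.Agent.K9h53.P5
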