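import Pool.Agent.K9h53.P5.ErrOne
import Pool.Agent.Y882.KW.Alm

/-! The lower bound of the weighted sum (adapted from `Y882/GP/Low.lean`). -/

set_option autoImplicit false

open Finset Polynomial Filter Topology

namespace Pool.Agent.K9h53.P5

open Pool.Agent.Y882
open Pool.Agent.Y882.GP
open Pool.Agent.W23.DC
open Pool.Agent.H410R2
open Pool.Agent.Helper112 Pool.Agent.Helper112.BLB
open Pool.Agent.H732R2.B2 (Sc card_prim)
open Pool.Agent.Y882.PX (ro KF)

open Classical in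
theorem lowW (hTW : St_TW) (F : ℤ[X]) (hF : 1 ≤ F.natDegree) (Y : ℕ) (hY : 1 ≤ Y) (P : Finset ℕ)
    (hP : ∀ p ∈ P, p.Prime) (c : Finset ℕ → ℝ) (D : ℕ) (K R R' : ℝ) (W : ℕ → ℝ)
    (hK0 : 0 ≤ K) (hK : ∀ T, |c T| ≤ K) (hc : ∀ T ⊆ P, c T ≠ 0 → ∏ p ∈ T, p ≤ D)
    (hN : ∀ N : ℕ, VV P c (fun p => if p ∣ N then 1 else 0) ≤ W N) (hW1 : ∀ N : ℕ, W N ≤ 1)
    (hR : ∀ g : ℕ, 1 ≤ g → g ≤ D →
      ∑ b ∈ (Icc 1 Y).filter (fun b => ¬ b.Coprime g), |al (Y : ℝ) b| ≤ R) (hR0 : 0 ≤ R)
    (hR' : ∑ b ∈ (Icc 1 Y).filter (fun b => ¬ b.Coprime (F.eval 0).natAbs), |al (Y : ℝ) b| ≤ R') :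
    ∑ T ∈ P.powerset, c T * Eg F Y (al (Y : ℝ)) 0 (∏ p ∈ T, p) +
      (∑ m ∈ Icc 1 Y, al (Y : ℝ) m) * VV P c (fun p => (rs F 0 p : ℝ) / ((p : ℝ) - 1)) -
        (K * R * Sc (KF F) D + R') ≤
      ∑ m ∈ Icc 1 Y, al (Y : ℝ) m * max 0 (W (F.eval (m : ℤ)).natAbs) := by
  set X : ℕ := Y with hX
  set x : ℝ := (Y : ℝ) with hx
  have hx0 : 0 < x := by rw [hx]; exact_mod_cast hY
  have hal0 : ∀ m ∈ Icc 1 X, 0 ≤ al x m := fun m hm => al_nonneg x hx0 m (mem_Icc.1 hm).1
  have hpos : ∀ T ⊆ P, 0 < ∏ p ∈ T, p := fun T hT => Nat.pos_of_ne_zero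
      (prod_ne_zero_iff.2 fun p hp => (hP p (hT hp)).ne_zero)
  -- the condition for a set of primes
  have hcond : ∀ (m : ℕ) (T : Finset ℕ), T ⊆ P →
      ((m.Coprime (∏ p ∈ T, p) ∧ (((∏ p ∈ T, p : ℕ) : ℤ) ∣ F.eval (m : ℤ) + 0)) ↔
        ∀ p ∈ T, p ∣ (F.eval (m : ℤ)).natAbs ∧ ¬ p ∣ m) := by
    intro m T hT
    rw [add_zero]
    constructor
    · rintro ⟨h1, h2⟩ p hp
      refine ⟨(dvd_prod_of_mem _ hp).trans (Int.natCast_dvd.1 h2), fun h3 => ?_⟩
      have h4 := Nat.dvd_gcd h3 (dvd_prod_of_mem (fun p => p) hp)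
      rw [h1] at h4
      exact (hP p (hT hp)).one_lt.ne' (Nat.dvd_one.1 h4)
    · intro h
      constructor
      · apply Nat.Coprime.prod_right
        intro p hp
        exact ((hP p (hT hp)).coprime_iff_not_dvd.2 (h p hp).2).symm
      · apply Int.natCast_dvd.2
        apply Finset.prod_primes_dvd
        · intro p hp
          exact (hP p (hT hp)).prime
        · intro p hp
          exact (h p hp).1
  -- step 1
  have s1 : ∑ m ∈ Icc 1 X, al x m * ∑ T ∈ P.powerset, c T *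
      (if m.Coprime (∏ p ∈ T, p) ∧ (((∏ p ∈ T, p : ℕ) : ℤ) ∣ F.eval (m : ℤ) + 0) then 1 else 0) ≤
      ∑ m ∈ Icc 1 X, al x m * max 0 (W (F.eval (m : ℤ)).natAbs) + R' := by
    have e1 : ∀ m ∈ Icc 1 X, al x m * ∑ T ∈ P.powerset, c T *
      (if m.Coprime (∏ p ∈ T, p) ∧ (((∏ p ∈ T, p : ℕ) : ℤ) ∣ F.eval (m : ℤ) + 0) then 1 else 0) ≤
        al x m * max 0 (W (F.eval (m : ℤ)).natAbs) +
        (if ¬ m.Coprime (F.eval 0).natAbs then |al x m| else 0) := by
      intro m hm
      set Q : Finset ℕ := P.filter (fun p => p ∣ (F.eval (m : ℤ)).natAbs ∧ ¬ p ∣ m) with hQ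
      have hQp : ∀ p ∈ Q, p.Prime := fun p hp => hP p (mem_filter.1 hp).1
      have hmem : ∀ p ∈ P, (p ∣ ∏ q ∈ Q, q ↔ p ∈ Q) := by
        intro p hp
        constructor
        · intro h
          obtain ⟨q, hq, hpq⟩ := ((hP p hp).prime.dvd_finsetProd_iff _).1 h
          rw [(Nat.prime_dvd_prime_iff_eq (hP p hp) (hQp q hq)).1 hpq]
          exact hq
        · intro h
          exact dvd_prod_of_mem _ h
      have h2 : ∑ T ∈ P.powerset, c T *
          (if m.Coprime (∏ p ∈ T, p) ∧ (((∏ p ∈ T, p : ℕ) : ℤ) ∣ F.eval (m : ℤ) + 0) then (1 : ℝ)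
            else 0) = VV P c (fun p => if p ∣ ∏ q ∈ Q, q then 1 else 0) := by
        unfold VV
        apply sum_congr rfl
        intro T hT
        rw [mem_powerset] at hT
        congr 1
        rw [if_congr (hcond m T hT) rfl rfl]
        by_cases h : ∀ p ∈ T, p ∣ (F.eval (m : ℤ)).natAbs ∧ ¬ p ∣ m
        · rw [if_pos h]
          symm
          apply prod_eq_one
          intro p hp
          rw [if_pos]
          rw [hmem p (hT hp), hQ, mem_filter]
          exact ⟨hT hp, h p hp⟩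
        · rw [if_neg h]
          push Not at h
          obtain ⟨p, hp, hp2⟩ := h
          symm
          apply prod_eq_zero hp
          rw [if_neg]
          rw [hmem p (hT hp), hQ, mem_filter]
          rintro ⟨_, h5, h6⟩
          exact h6 (hp2 h5)
      rw [h2]
      by_cases h6 : m.Coprime (F.eval 0).natAbs
      · rw [if_neg (not_not.2 h6), add_zero]
        apply mul_le_mul_of_nonneg_left _ (hal0 m hm)
        have h7 : VV P c (fun p => if p ∣ ∏ q ∈ Q, q then 1 else 0) =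
            VV P c (fun p => if p ∣ (F.eval (m : ℤ)).natAbs then 1 else 0) := by
          unfold VV
          apply sum_congr rfl
          intro T hT
          rw [mem_powerset] at hT
          congr 1
          apply prod_congr rfl
          intro p hp
          beta_reduce
          have hpP := hT hp
          by_cases h8 : p ∣ (F.eval (m : ℤ)).natAbs
          · rw [if_pos h8, if_pos]
            rw [hmem p hpP, hQ, mem_filter]
            refine ⟨hpP, h8, fun hpm => ?_⟩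
            have h7 : (p : ℤ) ∣ F.eval 0 := by
              have h8' : (m : ℤ) - 0 ∣ F.eval (m : ℤ) - F.eval 0 :=
                Polynomial.sub_dvd_eval_sub _ _ _
              rw [sub_zero] at h8'
              have h9 : (p : ℤ) ∣ F.eval (m : ℤ) - F.eval 0 :=
                (Int.natCast_dvd_natCast.2 hpm).trans h8'
              have h10 : (p : ℤ) ∣ F.eval (m : ℤ) := Int.natCast_dvd.2 h8
              have h11 : F.eval 0 = F.eval (m : ℤ) - (F.eval (m : ℤ) - F.eval 0) := by ring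
              rw [h11]
              exact dvd_sub h10 h9
            have h8' := Nat.dvd_gcd hpm (Int.natCast_dvd.1 h7)
            rw [h6] at h8'
            exact (hP p hpP).one_lt.ne' (Nat.dvd_one.1 h8')
          · rw [if_neg h8, if_neg]
            rw [hmem p hpP, hQ, mem_filter]
            exact fun h9 => h8 h9.2.1
        rw [h7]
        exact (hN _).trans (le_max_right _ _)
      · rw [if_pos h6]
        have h7 := (hN (∏ q ∈ Q, q)).trans (hW1 _)
        have h8 := hal0 m hm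
        have h9 : 0 ≤ al x m * max 0 (W (F.eval (m : ℤ)).natAbs) :=
          mul_nonneg h8 (le_max_left _ _)
        rw [abs_of_nonneg h8]
        have h10 := mul_le_mul_of_nonneg_left h7 h8
        rw [mul_one] at h10
        linarith
    refine (sum_le_sum e1).trans ?_
    rw [sum_add_distrib, ← sum_filter]
    linarith
  -- step 2: exchange the sums
  have s2 : ∑ m ∈ Icc 1 X, al x m * ∑ T ∈ P.powerset, c T *
      (if m.Coprime (∏ p ∈ T, p) ∧ (((∏ p ∈ T, p : ℕ) : ℤ) ∣ F.eval (m : ℤ) + 0) then 1 else 0) =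
      ∑ T ∈ P.powerset, c T * ∑ b ∈ (Icc 1 X).filter (fun b : ℕ => b.Coprime (∏ p ∈ T, p) ∧
        (((∏ p ∈ T, p : ℕ) : ℤ) ∣ F.eval (b : ℤ) + 0)), al x b := by
    simp_rw [mul_sum]
    rw [sum_comm]
    apply sum_congr rfl
    intro T _
    rw [sum_filter]
    apply sum_congr rfl
    intro m _
    split_ifs <;> ring
  -- step 3: the main term
  set M := ∑ m ∈ Icc 1 X, al x m with hM
  have s3 : ∀ T ∈ P.powerset, c T * Eg F X (al x) 0 (∏ p ∈ T, p) +
      M * (c T * ∏ p ∈ T, ((rs F 0 p : ℝ) / ((p : ℝ) - 1))) -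
        K * R * (if c T ≠ 0 then (KF F : ℝ) ^ T.card / (Nat.totient (∏ p ∈ T, p) : ℝ) else 0) ≤
      c T * ∑ b ∈ (Icc 1 X).filter (fun b : ℕ => b.Coprime (∏ p ∈ T, p) ∧
        (((∏ p ∈ T, p : ℕ) : ℤ) ∣ F.eval (b : ℤ) + 0)), al x b := by
    intro T hT
    rw [mem_powerset] at hT
    have hTp : ∀ p ∈ T, p.Prime := fun p hp => hP p (hT hp)
    by_cases hcT : c T = 0
    · rw [hcT]
      simp
    rw [if_pos hcT]
    have hdD := hc T hT hcT
    set d := ∏ p ∈ T, p with hd
    have hd1 : 1 ≤ d := hpos T hT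
    have hφ : (0 : ℝ) < Nat.totient d := by exact_mod_cast Nat.totient_pos.2 hd1
    have hg : ∏ p ∈ T, ((rs F 0 p : ℝ) / ((p : ℝ) - 1)) = (rs F 0 d : ℝ) / Nat.totient d := by
      rw [prod_div_distrib, hd, rs_prod hTW F 0 T hTp, tot_prod T hTp]
      push_cast
      rfl
    have hrs : (rs F 0 d : ℝ) ≤ (KF F : ℝ) ^ T.card := by
      have := PX.ro_le_pow F hF 0 T hTp
      rw [← hd] at this
      exact le_trans (by exact_mod_cast rs_le_ro F 0 d) this
    have e2 : M = ∑ m ∈ (Icc 1 X).filter (fun m => m.Coprime d), al x m +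
          ∑ m ∈ (Icc 1 X).filter (fun m => ¬ m.Coprime d), al x m := by
      rw [hM, sum_filter_add_sum_filter_not]
    have e3 : 0 ≤ ∑ m ∈ (Icc 1 X).filter (fun m => ¬ m.Coprime d), al x m :=
      sum_nonneg fun m hm => hal0 m (mem_filter.1 hm).1
    have e4 : ∑ m ∈ (Icc 1 X).filter (fun m => ¬ m.Coprime d), al x m ≤ R := by
      refine le_trans (sum_le_sum fun m _ => le_abs_self _) (hR d hd1 hdD)
    rw [hg]
    set Q := ∑ m ∈ (Icc 1 X).filter (fun m => ¬ m.Coprime d), al x m with hQ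
    have e1 : ∑ b ∈ (Icc 1 X).filter (fun b : ℕ => b.Coprime d ∧
        ((d : ℤ) ∣ F.eval (b : ℤ) + 0)), al x b = Eg F X (al x) 0 d +
        (rs F 0 d : ℝ) / (Nat.totient d : ℝ) * (M - Q) := by
      rw [e2]
      unfold Eg
      ring
    have e5 : c T * ((rs F 0 d : ℝ) / (Nat.totient d : ℝ)) * Q ≤
        K * R * ((KF F : ℝ) ^ T.card / (Nat.totient d : ℝ)) := by
      have e6 : c T ≤ K := (le_abs_self _).trans (hK T)
      calc c T * ((rs F 0 d : ℝ) / (Nat.totient d : ℝ)) * Q ≤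
          K * ((rs F 0 d : ℝ) / (Nat.totient d : ℝ)) * Q := by gcongr
        _ ≤ K * ((KF F : ℝ) ^ T.card / (Nat.totient d : ℝ)) * R := by gcongr
        _ = _ := by ring
    have e7 : c T * (Eg F X (al x) 0 d + (rs F 0 d : ℝ) / (Nat.totient d : ℝ) * (M - Q)) =
        c T * Eg F X (al x) 0 d + M * (c T * ((rs F 0 d : ℝ) / (Nat.totient d : ℝ))) -
        c T * ((rs F 0 d : ℝ) / (Nat.totient d : ℝ)) * Q := by ring
    rw [e1, e7]
    linarith
  have s6 := sum_le_sum s3
  rw [sum_sub_distrib, sum_add_distrib, ← mul_sum, ← mul_sum] at s6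
  have s7 : ∑ T ∈ P.powerset, (if c T ≠ 0 then (KF F : ℝ) ^ T.card /
      (Nat.totient (∏ p ∈ T, p) : ℝ) else 0) ≤ Sc (KF F) D := by
    have h1 := conv P hP (fun T => if c T ≠ 0 then 1 else 0) D (by
      intro T hT h
      apply hc T hT
      by_contra h2
      simp [h2] at h) (fun d => (KF F : ℝ) ^ d.primeFactors.card / (Nat.totient d : ℝ))
    have h2 : ∑ T ∈ P.powerset, (if c T ≠ 0 then (KF F : ℝ) ^ T.card /
        (Nat.totient (∏ p ∈ T, p) : ℝ) else 0) = ∑ T ∈ P.powerset, (if c T ≠ 0 then (1 : ℝ) else 0) *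
        ((KF F : ℝ) ^ (∏ p ∈ T, p).primeFactors.card / (Nat.totient (∏ p ∈ T, p) : ℝ)) := by
      apply sum_congr rfl
      intro T hT
      rw [mem_powerset] at hT
      rw [Nat.primeFactors_prod (fun p hp => hP p (hT hp))]
      split_ifs <;> simp
    rw [h2, ← h1]
    unfold Sc
    rw [sum_filter]
    apply sum_le_sum
    intro d _
    unfold cN
    by_cases hs : Squarefree d
    · rw [if_pos hs]
      have h3 : 0 ≤ (KF F : ℝ) ^ d.primeFactors.card / (Nat.totient d : ℝ) := by positivity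
      by_cases h4 : Squarefree d ∧ d.primeFactors ⊆ P
      · rw [if_pos h4]
        by_cases h5 : c d.primeFactors ≠ 0
        · simp only [if_pos h5, one_mul, le_refl]
        · simp only [if_neg h5, zero_mul]
          exact h3
      · rw [if_neg h4, zero_mul]
        exact h3
    · rw [if_neg hs, if_neg (fun h => hs h.1), zero_mul]
  have s8 : K * R * ∑ T ∈ P.powerset, (if c T ≠ 0 then (KF F : ℝ) ^ T.card /
      (Nat.totient (∏ p ∈ T, p) : ℝ) else 0) ≤ K * R * Sc (KF F) D :=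
    mul_le_mul_of_nonneg_left s7 (mul_nonneg hK0 hR0)
  rw [s2] at s1
  unfold VV
  linarith

end Pool.Agent.K9h53.P5
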