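import Pool.Agent.K9h53.P5.Upper
import Pool.Agent.K9h53.P5.Count

/-! The number of the indices `j ≤ N` with `p_j ^ 2 - 2` a product of at most five primes. -/

set_option autoImplicit false

open Finset Filter Topology

namespace Pool.Agent.K9h53.P5

open Classical in
/-- at least `c N / log N` indices `j ≤ N` -/
theorem idx_lower : ∃ c : ℝ, 0 < c ∧ ∀ᶠ N : ℕ in atTop, c * N / Real.log N ≤
    (((Icc 1 N).filter (fun j : ℕ => Pr 1 2 5 ((pj j : ℝ) ^ (3 / 25 : ℝ)) (pj j))).card : ℝ) := by
  obtain ⟨c0, hc0, h0⟩ := five adm12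
  have hpi := Chebyshev.eventually_primeCounting_le (ε := 1) one_pos
  set A : ℝ := Real.log 4 + 1 with hA
  have hA0 : 1 ≤ A := by
    have : 0 ≤ Real.log 4 := Real.log_nonneg (by norm_num)
    linarith
  set K : ℝ := 4 * A with hK
  have hK0 : 0 < K := by positivity
  have hK4 : 4 ≤ K := by linarith
  -- X N = ⌊N log N / K⌋
  have hXt : Tendsto (fun N : ℕ => (N : ℝ) * Real.log N / K) atTop atTop := by
    apply Tendsto.atTop_div_const hK0
    exact tendsto_natCast_atTop_atTop.atTop_mul_atTop₀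
      (Real.tendsto_log_atTop.comp tendsto_natCast_atTop_atTop)
  have hXn : Tendsto (fun N : ℕ => ⌊(N : ℝ) * Real.log N / K⌋₊) atTop atTop :=
    tendsto_nat_floor_atTop.comp hXt
  have hX2 : Tendsto (fun N : ℕ => (2 : ℝ) * (⌊(N : ℝ) * Real.log N / K⌋₊ : ℕ)) atTop atTop :=
    (tendsto_natCast_atTop_atTop.comp hXn).const_mul_atTop (by norm_num)
  have hlog : ∀ᶠ N : ℕ in atTop, 2 * K ≤ Real.log (N : ℝ) :=
    (Real.tendsto_log_atTop.comp tendsto_natCast_atTop_atTop).eventually_ge_atTop _
  refine ⟨c0 / (8 * K), by positivity, ?_⟩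
  filter_upwards [hXn.eventually h0, hX2.eventually hpi, hlog, eventually_ge_atTop 2] with N h1 h2 h3 hN
  have hNr : (2 : ℝ) ≤ N := by exact_mod_cast hN
  have hN0 : (0 : ℝ) < N := by linarith
  obtain ⟨X, hX⟩ : ∃ X : ℕ, X = ⌊(N : ℝ) * Real.log N / K⌋₊ := ⟨_, rfl⟩
  rw [← hX] at h1 h2
  set ℓ : ℝ := Real.log N with hℓ
  have hℓ8 : 8 ≤ ℓ := by linarith
  have hℓ0 : 0 < ℓ := by linarith
  have hXle : (X : ℝ) ≤ N * ℓ / K := by
    rw [hX]
    exact Nat.floor_le (by positivity)
  have hXge : N * ℓ / (2 * K) ≤ (X : ℝ) := by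
    have h4 : N * ℓ / K < X + 1 := by
      rw [hX]
      exact Nat.lt_floor_add_one _
    have h5 : 1 ≤ N * ℓ / (2 * K) := by
      rw [le_div_iff₀ (by positivity)]
      nlinarith
    have h6 : N * ℓ / K = N * ℓ / (2 * K) + N * ℓ / (2 * K) := by
      field_simp
      norm_num
    linarith
  have hXN : (N : ℝ) ≤ X := by
    refine le_trans ?_ hXge
    rw [le_div_iff₀ (by positivity)]
    exact mul_le_mul_of_nonneg_left h3 hN0.le
  have hXN2 : (X : ℝ) ≤ N ^ 2 := by
    refine hXle.trans ?_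
    rw [div_le_iff₀ hK0]
    have h4 : ℓ ≤ N := by
      have := Real.log_le_sub_one_of_pos hN0
      linarith
    calc (N : ℝ) * ℓ ≤ N * N := mul_le_mul_of_nonneg_left h4 hN0.le
      _ = N ^ 2 * 1 := by ring
      _ ≤ N ^ 2 * K := mul_le_mul_of_nonneg_left (by linarith) (by positivity)
  have hX0 : (0 : ℝ) < X := by linarith
  have hlX1 : ℓ ≤ Real.log X := Real.log_le_log hN0 hXN
  have hlX2 : Real.log X ≤ 2 * ℓ := by
    have := Real.log_le_log hX0 hXN2
    rw [Real.log_pow] at this
    push_cast at this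
    exact this
  -- π (2 X) ≤ N
  have hπ : Nat.primeCounting (2 * X) ≤ N := by
    have e1 : ⌊(2 : ℝ) * (X : ℝ)⌋₊ = 2 * X := by
      have : (2 : ℝ) * (X : ℝ) = ((2 * X : ℕ) : ℝ) := by push_cast; ring
      rw [this, Nat.floor_natCast]
    rw [e1] at h2
    have h5 : ℓ ≤ Real.log (2 * (X : ℝ)) := by
      apply Real.log_le_log hN0
      linarith
    have h6 : A * (2 * (X : ℝ)) / Real.log (2 * (X : ℝ)) ≤ N := by
      calc A * (2 * (X : ℝ)) / Real.log (2 * (X : ℝ)) ≤ A * (2 * (N * ℓ / K)) / ℓ := by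
            apply div_le_div₀ (by positivity) _ hℓ0 h5
            gcongr
        _ = N / 2 := by
            rw [hK]
            field_simp
            norm_num
        _ ≤ N := by linarith
    have h7 : ((Nat.primeCounting (2 * X) : ℕ) : ℝ) ≤ N := h2.trans h6
    exact_mod_cast h7
  -- the injection
  have hcard : ((Ioc X (2 * X)).filter (fun m : ℕ => Pr 1 2 5 ((m : ℝ) ^ (3 / 25 : ℝ)) m)).card ≤
      ((Icc 1 N).filter (fun j : ℕ => Pr 1 2 5 ((pj j : ℝ) ^ (3 / 25 : ℝ)) (pj j))).card := by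
    apply card_le_card_of_injOn (fun p => Nat.primeCounting' p + 1)
    · intro p hp
      rw [Finset.mem_coe, mem_filter, mem_Ioc] at hp
      rw [Finset.mem_coe, mem_filter, mem_Icc]
      obtain ⟨⟨h8, h9⟩, h10⟩ := hp
      have hpp : p.Prime := h10.1
      have e2 : pj (Nat.primeCounting' p + 1) = p := by
        unfold pj
        rw [Nat.add_sub_cancel]
        exact Nat.nth_count hpp
      refine ⟨⟨Nat.succ_pos _, ?_⟩, ?_⟩
      · show Nat.primeCounting' p + 1 ≤ N
        have e3 : Nat.primeCounting' p + 1 = Nat.primeCounting p := by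
          unfold Nat.primeCounting Nat.primeCounting'
          rw [Nat.count_succ, if_pos hpp]
        rw [e3]
        exact (Nat.monotone_primeCounting h9).trans hπ
      · simp only [e2]
        exact h10
    · intro p hp q hq hpq
      rw [Finset.mem_coe, mem_filter] at hp hq
      simp only at hpq
      have hpq' : Nat.count Nat.Prime p = Nat.count Nat.Prime q := by
        unfold Nat.primeCounting' at hpq
        omega
      exact Nat.count_injective hp.2.1 hq.2.1 hpq'
  calc c0 / (8 * K) * N / ℓ = c0 * (N * ℓ / (2 * K)) / (2 * ℓ) ^ 2 := by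
        field_simp
        norm_num
    _ ≤ c0 * X / Real.log X ^ 2 := by
        have hlX0 : 0 < Real.log X := by linarith
        apply div_le_div₀ (by positivity) _ (by positivity) _
        · exact mul_le_mul_of_nonneg_left hXge hc0.le
        · apply pow_le_pow_left₀ (by linarith) hlX2
    _ ≤ _ := h1
    _ ≤ _ := by exact_mod_cast hcard

end Pool.Agent.K9h53.P5
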