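import Mathlib
import Pool.Agent.Helper919.DivBound

/-! Moments of the number of divisors `≤ K`. -/

set_option autoImplicit false

open Finset

namespace Pool.Agent.K9h53.P5

/-- the number of the divisors `≤ K` of `j` -/
def tK (K j : ℕ) : ℕ := ((Icc 1 K).filter (fun k => k ∣ j)).card

theorem harm_le (K : ℕ) : ∑ m ∈ Icc 1 K, 1 / (m : ℝ) ≤ 1 + Real.log K := by
  have h3 := harmonic_le_one_add_log K
  rw [harmonic_eq_sum_Icc] at h3
  push_cast at h3
  simp_rw [one_div]
  exact h3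

theorem mult_sum (K d : ℕ) (hd : 1 ≤ d) :
    ∑ k ∈ (Icc 1 K).filter (fun k => d ∣ k), (d : ℝ) / k ≤ 1 + Real.log K := by
  refine le_trans ?_ (harm_le K)
  have hd0 : (0 : ℝ) < d := by exact_mod_cast hd
  have h1 : ∑ k ∈ (Icc 1 K).filter (fun k => d ∣ k), (d : ℝ) / k =
      ∑ m ∈ ((Icc 1 K).filter (fun k => d ∣ k)).image (fun k => k / d), 1 / (m : ℝ) := by
    rw [sum_image]
    · apply sum_congr rfl
      intro k hk
      rw [mem_filter, mem_Icc] at hk
      obtain ⟨⟨h1, h2⟩, m, rfl⟩ := hk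
      rw [Nat.mul_div_cancel_left m (by omega)]
      have hm : 0 < m := by
        rcases Nat.eq_zero_or_pos m with h | h
        · subst h; simp at h1
        · exact h
      have hm0 : (0 : ℝ) < m := by exact_mod_cast hm
      push_cast
      field_simp
    · intro k hk k' hk' h
      rw [Finset.mem_coe, mem_filter] at hk hk'
      simp only at h
      rw [← Nat.div_mul_cancel hk.2, ← Nat.div_mul_cancel hk'.2, h]
  rw [h1]
  apply sum_le_sum_of_subset_of_nonneg
  · intro m hm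
    rw [mem_image] at hm
    obtain ⟨k, hk, rfl⟩ := hm
    rw [mem_filter, mem_Icc] at hk
    rw [mem_Icc]
    exact ⟨Nat.div_pos (Nat.le_of_dvd (by omega) hk.2) (by omega),
      (Nat.div_le_self _ _).trans hk.1.2⟩
  · intro _ _ _
    positivity

theorem gcd_sum (K L : ℕ) (hL : 1 ≤ L) :
    ∑ k ∈ Icc 1 K, (Nat.gcd L k : ℝ) / k ≤ (L.divisors.card : ℝ) * (1 + Real.log K) := by
  have h1 : ∀ k ∈ Icc 1 K, (Nat.gcd L k : ℝ) / k ≤
      ∑ d ∈ L.divisors, (if d ∣ k then (d : ℝ) / k else 0) := by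
    intro k hk
    rw [mem_Icc] at hk
    have h2 : (if Nat.gcd L k ∣ k then (Nat.gcd L k : ℝ) / k else 0) ≤
        ∑ d ∈ L.divisors, (if d ∣ k then (d : ℝ) / k else 0) :=
      single_le_sum (f := fun d : ℕ => if d ∣ k then (d : ℝ) / k else 0)
        (s := L.divisors) (fun d _ => by
          split_ifs
          · positivity
          · exact le_rfl) (Nat.mem_divisors.2 ⟨Nat.gcd_dvd_left L k, by omega⟩)
    rw [if_pos (Nat.gcd_dvd_right L k)] at h2
    exact h2
  refine (sum_le_sum h1).trans ?_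
  rw [sum_comm, ← nsmul_eq_mul, ← sum_const]
  apply sum_le_sum
  intro d hd
  rw [← sum_filter]
  exact mult_sum K d (Nat.pos_of_mem_divisors hd)

/-- moments of `tK` -/
theorem moment (K Q : ℕ) (B : ℝ) (hB0 : 0 ≤ B)
    (hB : ∀ L, 1 ≤ L → L ≤ K ^ Q → ∑ k ∈ Icc 1 K, (Nat.gcd L k : ℝ) / k ≤ B) (J : ℕ) :
    ∀ q s : ℕ, q + s ≤ Q → ∀ L, 1 ≤ L → L ≤ K ^ s →
      ∑ j ∈ (Icc 1 J).filter (fun j => L ∣ j), (tK K j : ℝ) ^ q ≤ (J : ℝ) / L * B ^ q := by
  intro q
  induction q with
  | zero =>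
    intro s _ L hL _
    simp only [pow_zero, sum_const, nsmul_eq_mul, mul_one]
    have h1 : ((Icc 1 J).filter (fun j => L ∣ j)).card = J / L := by
      have h2 := Nat.Ioc_filter_dvd_card_eq_div J L
      have h3 : Ioc 0 J = Icc 1 J := by
        ext j; simp only [mem_Icc, mem_Ioc]; omega
      rw [h3] at h2
      exact h2
    rw [h1]
    exact Nat.cast_div_le
  | succ q ih =>
    intro s hs L hL hLs
    rcases Nat.eq_zero_or_pos K with hK | hK
    · subst hK
      have h0 : ∀ j, tK 0 j = 0 := fun j => by simp [tK]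
      have : ∑ j ∈ (Icc 1 J).filter (fun j => L ∣ j), (tK 0 j : ℝ) ^ (q + 1) = 0 := by
        apply sum_eq_zero
        intro j _
        rw [h0]
        simp
      rw [this]
      positivity
    have h1 : ∀ j ∈ (Icc 1 J).filter (fun j => L ∣ j), (tK K j : ℝ) ^ (q + 1) =
        ∑ k ∈ Icc 1 K, (if k ∣ j then (tK K j : ℝ) ^ q else 0) := by
      intro j _
      rw [pow_succ, ← sum_filter, sum_const, nsmul_eq_mul, mul_comm]
      rfl
    rw [sum_congr rfl h1, sum_comm]
    have hLr : (0 : ℝ) < L := by exact_mod_cast hL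
    have h2 : ∀ k ∈ Icc 1 K, ∑ j ∈ (Icc 1 J).filter (fun j => L ∣ j),
        (if k ∣ j then (tK K j : ℝ) ^ q else 0) ≤ ((J : ℝ) / L * B ^ q) * ((Nat.gcd L k : ℝ) / k) := by
      intro k hk
      rw [mem_Icc] at hk
      rw [← sum_filter, filter_filter]
      have h3 : (Icc 1 J).filter (fun j => L ∣ j ∧ k ∣ j) = (Icc 1 J).filter (fun j => Nat.lcm L k ∣ j) := by
        apply filter_congr
        intro j _
        exact ⟨fun h => Nat.lcm_dvd h.1 h.2, fun h => ⟨(Nat.dvd_lcm_left L k).trans h,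
          (Nat.dvd_lcm_right L k).trans h⟩⟩
      rw [h3]
      have hlcm1 : 1 ≤ Nat.lcm L k := Nat.lcm_pos (by omega) (by omega)
      have hlcm2 : Nat.lcm L k ≤ K ^ (s + 1) := by
        have h4 : Nat.lcm L k ≤ L * k := Nat.le_of_dvd (Nat.mul_pos (by omega) (by omega))
          (Nat.lcm_dvd_mul L k)
        refine h4.trans ?_
        rw [pow_succ]
        exact Nat.mul_le_mul hLs hk.2
      refine (ih (s + 1) (by omega) _ hlcm1 hlcm2).trans (le_of_eq ?_)
      have h5 : (Nat.gcd L k : ℝ) * (Nat.lcm L k : ℝ) = L * k := by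
        exact_mod_cast Nat.gcd_mul_lcm L k
      have hk0 : (0 : ℝ) < k := by exact_mod_cast (by omega : 0 < k)
      have hlc0 : (0 : ℝ) < (Nat.lcm L k : ℕ) := by exact_mod_cast hlcm1
      have h6 : (J : ℝ) / (Nat.lcm L k : ℕ) = (J : ℝ) / L * ((Nat.gcd L k : ℝ) / k) := by
        rw [div_mul_div_comm, div_eq_div_iff hlc0.ne' (by positivity)]
        rw [← h5]
        ring
      rw [h6]
      ring
    refine (sum_le_sum h2).trans ?_
    rw [← mul_sum]
    have h3 := hB L hL (hLs.trans (Nat.pow_le_pow_right hK (by omega)))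
    calc (J : ℝ) / L * B ^ q * ∑ k ∈ Icc 1 K, (Nat.gcd L k : ℝ) / k ≤ (J : ℝ) / L * B ^ q * B :=
          mul_le_mul_of_nonneg_left h3 (by positivity)
      _ = _ := by ring

/-- the `q`-th moment is at most `C K ^ 2` on average -/
theorem moment2 (q : ℕ) (hq : 1 ≤ q) : ∃ C : ℝ, 0 < C ∧ ∀ K J : ℕ, 1 ≤ K →
    ∑ j ∈ Icc 1 J, (tK K j : ℝ) ^ q ≤ C * J * (K : ℝ) ^ 2 := by
  obtain ⟨C, hC0, hC⟩ := Pool.Agent.Helper919.card_divisors_pow_le (q * q)
  have hCr : (1 : ℝ) ≤ C := by exact_mod_cast hC0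
  -- `(1 + log K) ^ q ≤ C' K`
  obtain ⟨C', hC'0, hC'⟩ : ∃ C' : ℝ, 0 < C' ∧ ∀ K : ℕ, 1 ≤ K → (1 + Real.log K) ^ q ≤ C' * K := by
    refine ⟨(q : ℝ) ^ q * Real.exp 1, by positivity, fun K hK => ?_⟩
    have hK0 : (0 : ℝ) < K := by exact_mod_cast hK
    have hl : 0 ≤ Real.log K := Real.log_natCast_nonneg K
    have hq0 : (0 : ℝ) < q := by exact_mod_cast hq
    have h1 : (1 + Real.log K) / q ≤ Real.exp ((1 + Real.log K) / q) := by
      linarith [Real.add_one_le_exp ((1 + Real.log K) / q)]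
    have h2 : ((1 + Real.log K) / q) ^ q ≤ Real.exp (1 + Real.log K) := by
      calc ((1 + Real.log K) / q) ^ q ≤ Real.exp ((1 + Real.log K) / q) ^ q :=
            pow_le_pow_left₀ (by positivity) h1 q
        _ = Real.exp (1 + Real.log K) := by
            rw [← Real.exp_nat_mul]
            congr 1
            field_simp
    rw [Real.exp_add, Real.exp_log hK0, div_pow, div_le_iff₀ (by positivity)] at h2
    linarith
  refine ⟨C * C', by positivity, fun K J hK => ?_⟩
  have hK0 : (0 : ℝ) < K := by exact_mod_cast hK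
  have hK1 : (1 : ℝ) ≤ K := by exact_mod_cast hK
  have hl : 0 ≤ Real.log K := Real.log_natCast_nonneg K
  -- the largest number of divisors
  set D : ℕ := (Icc 1 (K ^ q)).sup (fun L => L.divisors.card) with hD
  have hDC : (D : ℝ) ^ (q * q) ≤ C * K ^ q := by
    have hne : (Icc 1 (K ^ q)).Nonempty := ⟨1, by
      rw [mem_Icc]
      exact ⟨le_rfl, Nat.one_le_pow _ _ hK⟩⟩
    obtain ⟨L, hL, hLD⟩ := exists_mem_eq_sup (Icc 1 (K ^ q)) hne (fun L => L.divisors.card)
    rw [mem_Icc] at hL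
    have h1 := hC L (by omega)
    have h2 : D ^ (q * q) ≤ C * K ^ q := by
      rw [hD, hLD]
      exact h1.trans (Nat.mul_le_mul_left _ hL.2)
    exact_mod_cast h2
  have hDq : (D : ℝ) ^ q ≤ C * K := by
    by_contra hcon
    push Not at hcon
    have h1 : (C * K : ℝ) ^ q < ((D : ℝ) ^ q) ^ q :=
      pow_lt_pow_left₀ hcon (by positivity) (by omega)
    rw [← pow_mul, mul_pow] at h1
    have h2 : (C : ℝ) * K ^ q ≤ (C : ℝ) ^ q * K ^ q := by
      apply mul_le_mul_of_nonneg_right _ (by positivity)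
      exact le_self_pow₀ hCr (by omega)
    linarith
  set B : ℝ := D * (1 + Real.log K) with hB
  have h1 := moment K q B (by positivity) (by
    intro L hL hLq
    refine (gcd_sum K L hL).trans ?_
    rw [hB]
    apply mul_le_mul_of_nonneg_right _ (by positivity)
    have : L.divisors.card ≤ D := le_sup (f := fun L : ℕ => L.divisors.card) (mem_Icc.2 ⟨hL, hLq⟩)
    exact_mod_cast this) J q 0 (by omega) 1 le_rfl (by simp)
  have h2 : (Icc 1 J).filter (fun j => 1 ∣ j) = Icc 1 J := by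
    apply filter_true_of_mem
    intro j _
    exact one_dvd j
  rw [h2] at h1
  refine h1.trans ?_
  have hJ0 : (0 : ℝ) ≤ J := Nat.cast_nonneg J
  rw [Nat.cast_one, div_one]
  calc (J : ℝ) * B ^ q = J * ((D : ℝ) ^ q * (1 + Real.log K) ^ q) := by rw [hB, mul_pow]
    _ ≤ J * ((C * K) * (C' * K)) := by
        apply mul_le_mul_of_nonneg_left _ hJ0
        exact mul_le_mul hDq (hC' K hK) (by positivity) (by positivity)
    _ = C * C' * J * (K : ℝ) ^ 2 := by ring

end Pool.Agent.K9h53.P5
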