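import Pool.Agent.K9h53.P5.Upper
import Pool.Agent.K9h53.P5.Mom

/-! The least multiplier `k` with `p_{k n} ^ 2 - 2` prime exceeds `(log n) ^ (1 - ε)` for almost all `n`. -/

set_option autoImplicit false

open Finset Filter Topology

namespace Pool.Agent.K9h53.P5

open Classical in
/-- pairs: the number of the `n ≤ N` with a good multiple `k n`, `k ≤ K` -/
theorem mult_pairs (P : ℕ → Prop) (N K : ℕ) :
    (((Icc 1 N).filter (fun n => ∃ k, 1 ≤ k ∧ k ≤ K ∧ P (k * n))).card : ℝ) ≤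
      ∑ j ∈ (Icc 1 (K * N)).filter P, (tK K j : ℝ) := by
  have hsub : (Icc 1 N).filter (fun n => ∃ k, 1 ≤ k ∧ k ≤ K ∧ P (k * n)) ⊆
      (Icc 1 K).biUnion (fun k => (Icc 1 N).filter (fun n => P (k * n))) := by
    intro n hn
    rw [mem_filter] at hn
    obtain ⟨h1, k, hk1, hk2, h2⟩ := hn
    rw [mem_biUnion]
    exact ⟨k, mem_Icc.2 ⟨hk1, hk2⟩, mem_filter.2 ⟨h1, h2⟩⟩
  have h1 := (card_le_card hsub).trans card_biUnion_le
  have h2 : ∀ k ∈ Icc 1 K, ((Icc 1 N).filter (fun n => P (k * n))).card ≤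
      (((Icc 1 (K * N)).filter P).filter (fun j => k ∣ j)).card := by
    intro k hk
    rw [mem_Icc] at hk
    apply card_le_card_of_injOn (fun n => k * n)
    · intro n hn
      rw [Finset.mem_coe, mem_filter, mem_Icc] at hn
      rw [Finset.mem_coe, mem_filter, mem_filter, mem_Icc]
      exact ⟨⟨⟨Nat.mul_pos (by omega) (by omega), Nat.mul_le_mul hk.2 hn.1.2⟩, hn.2⟩, Dvd.intro _ rfl⟩
    · intro n _ m _ h
      simp only at h
      exact Nat.eq_of_mul_eq_mul_left (by omega) h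
  have h3 := h1.trans (sum_le_sum h2)
  have h4 : ∑ k ∈ Icc 1 K, (((Icc 1 (K * N)).filter P).filter (fun j => k ∣ j)).card =
      ∑ j ∈ (Icc 1 (K * N)).filter P, tK K j := by
    simp_rw [card_filter]
    rw [sum_comm]
    apply sum_congr rfl
    intro j _
    unfold tK
    rw [card_filter]
  rw [h4] at h3
  exact_mod_cast h3

set_option maxHeartbeats 400000 in
/-- **Almost all `n` need a large multiplier.** -/
theorem main3 (ε : ℝ) (hε : 0 < ε) (hε1 : ε < 1) : ∃ C : ℝ, 0 < C ∧ ∀ N : ℕ, 3 ≤ N →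
    ({n : ℕ | 1 ≤ n ∧ n ≤ N ∧ ∃ k : ℕ, 1 ≤ k ∧ (k : ℝ) ≤ Real.log N ^ (1 - ε) ∧
      (pj (k * n) ^ 2 - 2).Prime}.ncard : ℝ) ≤ C * N / Real.log N ^ (ε / 2) := by
  classical
  obtain ⟨C0, hC0, hA⟩ := idx_upper
  obtain ⟨q0, hq0⟩ : ∃ q0 : ℕ, 8 / ε ≤ q0 := exists_nat_ge _
  obtain ⟨C1, hC1, hM⟩ := moment2 (q0 + 1) (by omega)
  refine ⟨C0 + C1 + 1, by positivity, fun N hN => ?_⟩
  have hNr : (3 : ℝ) ≤ N := by exact_mod_cast hN
  have hN0 : (0 : ℝ) < N := by linarith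
  set ℓ : ℝ := Real.log N with hℓ
  have hℓ1 : 1 ≤ ℓ := by
    rw [hℓ, Real.le_log_iff_exp_le hN0]
    linarith [Real.exp_one_lt_d9]
  have hℓ0 : 0 < ℓ := by linarith
  set K : ℕ := ⌊ℓ ^ (1 - ε)⌋₊ with hK
  have hKle : (K : ℝ) ≤ ℓ ^ (1 - ε) := Nat.floor_le (by positivity)
  have hK1 : 1 ≤ K := by
    apply Nat.le_floor
    push_cast
    exact Real.one_le_rpow hℓ1 (by linarith)
  have hK0 : (0 : ℝ) < K := by exact_mod_cast hK1
  have hset : {n : ℕ | 1 ≤ n ∧ n ≤ N ∧ ∃ k : ℕ, 1 ≤ k ∧ (k : ℝ) ≤ ℓ ^ (1 - ε) ∧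
      (pj (k * n) ^ 2 - 2).Prime} =
      (((Icc 1 N).filter (fun n => ∃ k, 1 ≤ k ∧ k ≤ K ∧ (pj (k * n) ^ 2 - 2).Prime) : Finset ℕ) : Set ℕ) := by
    ext n
    simp only [Set.mem_setOf_eq, coe_filter, mem_Icc]
    constructor
    · rintro ⟨h1, h2, k, h3, h4, h5⟩
      exact ⟨⟨h1, h2⟩, k, h3, Nat.le_floor h4, h5⟩
    · rintro ⟨⟨h1, h2⟩, k, h3, h4, h5⟩
      refine ⟨h1, h2, k, h3, ?_, h5⟩
      exact le_trans (by exact_mod_cast h4) hKle
  rw [hset, Set.ncard_coe_finset]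
  refine (mult_pairs (fun j => (pj j ^ 2 - 2).Prime) N K).trans ?_
  obtain ⟨J, hJ⟩ : ∃ J : ℕ, J = K * N := ⟨_, rfl⟩
  rw [← hJ]
  have hJN : N ≤ J := by
    rw [hJ]
    exact Nat.le_mul_of_pos_left _ hK1
  have hJr : (J : ℝ) = K * N := by rw [hJ]; push_cast; ring
  set T : ℝ := ℓ ^ (ε / 2) with hT
  have hT1 : 1 ≤ T := Real.one_le_rpow hℓ1 (by linarith)
  have hT0 : 0 < T := by linarith
  -- pointwise
  have hpt : ∀ j : ℕ, (tK K j : ℝ) ≤ T + (tK K j : ℝ) ^ (q0 + 1) / T ^ q0 := by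
    intro j
    have ht0 : (0 : ℝ) ≤ tK K j := Nat.cast_nonneg _
    rcases le_or_gt (tK K j : ℝ) T with h | h
    · have : 0 ≤ (tK K j : ℝ) ^ (q0 + 1) / T ^ q0 := by positivity
      linarith
    · have h1 : (tK K j : ℝ) ≤ (tK K j : ℝ) ^ (q0 + 1) / T ^ q0 := by
        rw [le_div_iff₀ (by positivity), pow_succ, mul_comm]
        exact mul_le_mul_of_nonneg_right (pow_le_pow_left₀ hT0.le h.le q0) ht0
      linarith
  have s1 : ∑ j ∈ (Icc 1 J).filter (fun j => (pj j ^ 2 - 2).Prime), (tK K j : ℝ) ≤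
      T * (((Icc 1 J).filter (fun j => (pj j ^ 2 - 2).Prime)).card : ℝ) +
      (∑ j ∈ Icc 1 J, (tK K j : ℝ) ^ (q0 + 1)) / T ^ q0 := by
    refine (sum_le_sum fun j _ => hpt j).trans ?_
    rw [sum_add_distrib, sum_const, nsmul_eq_mul, mul_comm, ← sum_div]
    apply add_le_add le_rfl
    apply div_le_div_of_nonneg_right _ (by positivity)
    apply sum_le_sum_of_subset_of_nonneg (filter_subset _ _)
    intro _ _ _
    positivity
  have s2 : T * (((Icc 1 J).filter (fun j => (pj j ^ 2 - 2).Prime)).card : ℝ) ≤ C0 * (N / T) := by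
    have h1 : (((Icc 1 J).filter (fun j => (pj j ^ 2 - 2).Prime)).card : ℝ) ≤ C0 * J / Real.log J := by
      convert hA J (by omega)
    have hlJ : ℓ ≤ Real.log J := Real.log_le_log hN0 (by exact_mod_cast hJN)
    refine (mul_le_mul_of_nonneg_left h1 hT0.le).trans ?_
    calc T * (C0 * J / Real.log J) ≤ T * (C0 * (ℓ ^ (1 - ε) * N) / ℓ) := by
          have hJ2 : (J : ℝ) ≤ ℓ ^ (1 - ε) * N := by
            rw [hJr]
            exact mul_le_mul_of_nonneg_right hKle hN0.le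
          apply mul_le_mul_of_nonneg_left _ hT0.le
          apply div_le_div₀ (by positivity) (mul_le_mul_of_nonneg_left hJ2 hC0.le) hℓ0 hlJ
      _ = C0 * (N * (T * ℓ ^ (1 - ε) / ℓ)) := by ring
      _ = C0 * (N / T) := by
          congr 1
          rw [div_eq_mul_inv (N : ℝ) T]
          congr 1
          have e1 : T * ℓ ^ (1 - ε) / ℓ = ℓ ^ (ε / 2 + (1 - ε) - 1) := by
            rw [hT, ← Real.rpow_add hℓ0, Real.rpow_sub hℓ0, Real.rpow_one]
          rw [e1, hT, ← Real.rpow_neg hℓ0.le]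
          congr 1
          ring
  have s3 : (∑ j ∈ Icc 1 J, (tK K j : ℝ) ^ (q0 + 1)) / T ^ q0 ≤ C1 * (N / T) := by
    have h1 := hM K J hK1
    have hTq : ℓ ^ (4 : ℕ) ≤ T ^ q0 := by
      rw [hT, ← Real.rpow_natCast, ← Real.rpow_natCast, ← Real.rpow_mul hℓ0.le]
      apply Real.rpow_le_rpow_of_exponent_le hℓ1
      rw [div_le_iff₀ hε] at hq0
      push_cast
      linarith
    have hKℓ : (K : ℝ) ≤ ℓ := by
      refine hKle.trans ?_
      calc ℓ ^ (1 - ε) ≤ ℓ ^ (1 : ℝ) := Real.rpow_le_rpow_of_exponent_le hℓ1 (by linarith)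
        _ = ℓ := Real.rpow_one _
    have hTℓ : T ≤ ℓ := by
      rw [hT]
      calc ℓ ^ (ε / 2) ≤ ℓ ^ (1 : ℝ) := Real.rpow_le_rpow_of_exponent_le hℓ1 (by linarith)
        _ = ℓ := Real.rpow_one _
    rw [div_le_iff₀ (by positivity)]
    calc ∑ j ∈ Icc 1 J, (tK K j : ℝ) ^ (q0 + 1) ≤ C1 * J * (K : ℝ) ^ 2 := h1
      _ = C1 * N * (K : ℝ) ^ 3 := by rw [hJr]; ring
      _ ≤ C1 * N * ℓ ^ 3 := by gcongr
      _ = C1 * (N / T) * (T * ℓ ^ 3) := by field_simp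
      _ ≤ C1 * (N / T) * (ℓ * ℓ ^ 3) := by gcongr
      _ = C1 * (N / T) * ℓ ^ 4 := by ring
      _ ≤ C1 * (N / T) * T ^ q0 := mul_le_mul_of_nonneg_left hTq (by positivity)
  have s4 := s1.trans (add_le_add s2 s3)
  have s5 : C0 * (N / T) + C1 * (N / T) ≤ (C0 + C1 + 1) * N / T := by
    have h0 : 0 ≤ (N : ℝ) / T := by positivity
    calc C0 * (N / T) + C1 * (N / T) = (C0 + C1) * (N / T) := by ring
      _ ≤ (C0 + C1 + 1) * (N / T) := mul_le_mul_of_nonneg_right (by linarith) h0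
      _ = (C0 + C1 + 1) * N / T := by ring
  refine le_trans ?_ (s4.trans s5)
  apply le_of_eq
  congr!

end Pool.Agent.K9h53.P5
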