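import Pool.Agent.K9h53.P5.Upper

/-! Almost all `n` have no representation `n = k + m` with a small summand. -/

set_option autoImplicit false

open Finset Filter Topology

namespace Pool.Agent.K9h53.P5

/-- **Both summands are large for almost all `n`.** -/
theorem sum_upper (δ : ℝ) (hδ : 0 < δ) : ∃ c : ℝ, 0 < c ∧ ∀ᶠ N : ℕ in atTop,
    ({n : ℕ | 1 ≤ n ∧ n ≤ N ∧ ∃ k m : ℕ, 1 ≤ k ∧ 1 ≤ m ∧ k + m = n ∧
      ((min k m : ℕ) : ℝ) ≤ c * Real.log N * Real.log (Real.log N) ∧
      (pj k ^ 2 - 2).Prime ∧ (pj m ^ 2 - 2).Prime}.ncard : ℝ) ≤ δ * N := by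
  classical
  obtain ⟨C, hC, hA0⟩ := idx_upper
  set G : ℕ → Finset ℕ := fun J => (Icc 1 J).filter (fun j => (pj j ^ 2 - 2).Prime) with hG
  have hA : ∀ J : ℕ, 2 ≤ J → ((G J).card : ℝ) ≤ C * J / Real.log J := by
    intro J hJ
    convert hA0 J hJ
  set c : ℝ := δ / (2 * C ^ 2) with hc
  have hc0 : 0 < c := by positivity
  refine ⟨c, hc0, ?_⟩
  have hlt : Tendsto (fun N : ℕ => Real.log (N : ℝ)) atTop atTop :=
    Real.tendsto_log_atTop.comp tendsto_natCast_atTop_atTop
  have hllt : Tendsto (fun N : ℕ => Real.log (Real.log (N : ℝ))) atTop atTop :=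
    Real.tendsto_log_atTop.comp hlt
  have hsq : ∀ᶠ N : ℕ in atTop, 1 / (2 * C * c) ≤ √(Real.log (N : ℝ)) :=
    (Real.tendsto_sqrt_atTop.comp hlt).eventually_ge_atTop _
  filter_upwards [hlt.eventually_ge_atTop 4, hllt.eventually_ge_atTop 1, hsq,
    eventually_ge_atTop 2] with N h1 h2 h3 hN
  have hN0 : (0 : ℝ) < N := by
    have : (2 : ℝ) ≤ N := by exact_mod_cast hN
    linarith
  set ℓ : ℝ := Real.log N with hℓ
  have hℓ0 : 0 < ℓ := by linarith
  set M : ℕ := ⌊c * ℓ * Real.log ℓ⌋₊ with hM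
  have hMle : (M : ℝ) ≤ c * ℓ * Real.log ℓ := Nat.floor_le (by positivity)
  have hs0 : 0 < √ℓ := Real.sqrt_pos.2 hℓ0
  have hss : √ℓ * √ℓ = ℓ := Real.mul_self_sqrt hℓ0.le
  -- the number of the small good indices
  have hGM : ((G M).card : ℝ) ≤ 2 * C * c * ℓ := by
    rcases le_or_gt (M : ℝ) (√ℓ) with h | h
    · have h4 : ((G M).card : ℝ) ≤ M := by
        have : (G M).card ≤ M := by
          refine (card_filter_le _ _).trans ?_
          rw [Nat.card_Icc]
          omega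
        exact_mod_cast this
      rw [div_le_iff₀ (by positivity)] at h3
      calc ((G M).card : ℝ) ≤ √ℓ * 1 := by linarith
        _ ≤ √ℓ * (√ℓ * (2 * C * c)) := mul_le_mul_of_nonneg_left h3 hs0.le
        _ = 2 * C * c * (√ℓ * √ℓ) := by ring
        _ = 2 * C * c * ℓ := by rw [hss]
    · have hs2 : 2 ≤ √ℓ := by
        rw [show (2 : ℝ) = √4 by rw [show (4 : ℝ) = 2 ^ 2 by norm_num, Real.sqrt_sq (by norm_num)]]
        exact Real.sqrt_le_sqrt h1
      have hM2 : 2 ≤ M := by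
        have : (2 : ℝ) < M := by linarith
        exact_mod_cast this.le
      have hlM : Real.log ℓ / 2 ≤ Real.log M := by
        rw [← Real.log_sqrt hℓ0.le]
        exact Real.log_le_log hs0 h.le
      calc ((G M).card : ℝ) ≤ C * M / Real.log M := hA M hM2
        _ ≤ C * (c * ℓ * Real.log ℓ) / (Real.log ℓ / 2) := by
            apply div_le_div₀ (by positivity) _ (by positivity) hlM
            exact mul_le_mul_of_nonneg_left hMle hC.le
        _ = 2 * C * c * ℓ := by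
            have : Real.log ℓ ≠ 0 := by linarith
            field_simp
  have hGN : ((G N).card : ℝ) ≤ C * N / ℓ := hA N hN
  -- the covering
  have hsub : {n : ℕ | 1 ≤ n ∧ n ≤ N ∧ ∃ k m : ℕ, 1 ≤ k ∧ 1 ≤ m ∧ k + m = n ∧
      ((min k m : ℕ) : ℝ) ≤ c * ℓ * Real.log ℓ ∧
      (pj k ^ 2 - 2).Prime ∧ (pj m ^ 2 - 2).Prime} ⊆
      (((G M ×ˢ G N).image (fun x => x.1 + x.2) : Finset ℕ) : Set ℕ) := by
    rintro n ⟨h4, h5, k, m, h6, h7, h8, h9, h10, h11⟩
    have h12 : min k m ≤ M := Nat.le_floor h9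
    rw [Finset.mem_coe, mem_image]
    rcases le_total k m with h | h
    · refine ⟨(k, m), ?_, h8⟩
      rw [min_eq_left h] at h12
      rw [mem_product, hG]
      simp only [mem_filter, mem_Icc]
      exact ⟨⟨⟨h6, h12⟩, h10⟩, ⟨h7, by omega⟩, h11⟩
    · refine ⟨(m, k), ?_, by rw [← h8]; exact Nat.add_comm _ _⟩
      rw [min_eq_right h] at h12
      rw [mem_product, hG]
      simp only [mem_filter, mem_Icc]
      exact ⟨⟨⟨h7, h12⟩, h11⟩, ⟨h6, by omega⟩, h10⟩
  have hcard := Set.ncard_le_ncard hsub (Finset.finite_toSet _)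
  rw [Set.ncard_coe_finset] at hcard
  have hcard2 := hcard.trans (card_image_le)
  rw [card_product] at hcard2
  calc _ ≤ (((G M).card * (G N).card : ℕ) : ℝ) := by exact_mod_cast hcard2
    _ = ((G M).card : ℝ) * ((G N).card : ℝ) := by push_cast; ring
    _ ≤ (2 * C * c * ℓ) * (C * N / ℓ) := mul_le_mul hGM hGN (Nat.cast_nonneg _) (by positivity)
    _ = δ * N := by
        rw [hc]
        field_simp

end Pool.Agent.K9h53.P5
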