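import Pool.Agent.K9h53.P5.Quad
import Pool.Agent.TH977.PW.Input
import Pool.Agent.H774EP.Core

/-! Upper bounds: primes `p` with `a p ^ 2 - b` prime, and the indices of these primes. -/

set_option autoImplicit false

open Finset Polynomial Filter Topology

namespace Pool.Agent.K9h53.P5

open Pool.Agent.H373R2.T7 Pool.Agent.W123.RP Pool.Agent.W123.RU Pool.Agent.W123.RU.Poly
open Pool.Agent.TH464.PW (Rgh Qs)

theorem sys_FF {a b : ℕ} (h : Adm a b) : Sys (Pool.Agent.W182.PW.ext (fun _ : Fin 1 => FF a b)) := by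
  have ha0 : (a : ℤ) ≠ 0 := by
    have := h.ha
    omega
  exact Pool.Agent.TH977.PW.sys_ext (fun _ : Fin 1 => FF a b)
    (fun _ => by
      unfold FF
      apply Pool.Agent.TH464.PW.quad_irr _ _ _ ha0
      · rintro p hp ⟨h1, _, h3⟩
        rw [dvd_neg] at h3
        have h4 : p ∣ a := by exact_mod_cast h1
        have h5 : p ∣ b := by exact_mod_cast h3
        have h6 := Nat.dvd_gcd h4 h5
        rw [h.cop] at h6
        exact hp.one_lt.ne' (Nat.dvd_one.1 h6)
      · intro hsq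
        apply h.sq
        obtain ⟨r, hr⟩ := hsq
        have h1 : r * r = 4 * ((a : ℤ) * b) := by rw [← hr]; ring
        have h2 : (2 : ℤ) ∣ r := by
          have : (2 : ℤ) ∣ r * r := by
            rw [h1]
            exact ⟨2 * ((a : ℤ) * b), by ring⟩
          rcases Int.prime_two.dvd_or_dvd this with h3 | h3 <;> exact h3
        obtain ⟨s, hs⟩ := h2
        refine ⟨s, ?_⟩
        push_cast
        rw [hs] at h1
        linarith)
    (fun _ => by rw [FF_deg h]; norm_num)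
    (fun _ => by
      unfold FF
      rw [Pool.Agent.TH464.PW.quad_lead _ _ _ ha0]
      have := h.ha
      omega)
    (fun _ _ _ => Subsingleton.elim _ _)
    (fun _ hX => by
      have h1 := FF_deg h
      rw [hX, natDegree_X] at h1
      omega)
    (fun p hp => by
      obtain ⟨m, h1, h2⟩ := h.adm p hp
      refine ⟨m, h1, fun _ => ?_⟩
      rw [FF_eval]
      exact h2)

open Classical in
/-- upper bound for the number of the primes `p ≤ X` with `a p ^ 2 - b` prime -/
theorem upper_count {a b : ℕ} (h : Adm a b) : ∃ C : ℝ, 0 < C ∧ ∀ᶠ X : ℕ in atTop,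
    (((Icc 1 X).filter (fun p : ℕ => p.Prime ∧ ((a : ℤ) * (p : ℤ) ^ 2 - b).natAbs.Prime)).card : ℝ) ≤
      C * X / Real.log X ^ 2 := by
  obtain ⟨r, hr2, hr⟩ := Pool.Agent.TH977.PW.upper_input _ (sys_FF h) 1 one_pos le_rfl
  obtain ⟨C1, C2, hC1, hC2, hin⟩ := hr r le_rfl
  have hrr : (2 : ℝ) ≤ r := by exact_mod_cast hr2
  have hcard : Fintype.card (Option (Fin 1)) = 2 := rfl
  rw [hcard] at hin
  refine ⟨C1 + 2, by positivity, ?_⟩
  have ev1 := Pool.Agent.Y882.polylog 1 2 (1 / 2) (by norm_num)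
  have hlogX : Tendsto (fun X : ℕ => Real.log (X : ℝ)) atTop atTop :=
    Real.tendsto_log_atTop.comp tendsto_natCast_atTop_atTop
  filter_upwards [hin 1 one_pos, ev1, eventually_ge_atTop 16, hlogX.eventually_ge_atTop 1,
    eventually_ge_atTop ((a + b + 2) ^ 2)] with X hX e1 hX16 hl1 hXab
  obtain ⟨_, _, h3, _⟩ := hX X (by rw [Real.rpow_one]) le_rfl
  have hX16r : (16 : ℝ) ≤ X := by exact_mod_cast hX16
  have hX0 : (0 : ℝ) < X := by linarith
  have hX1 : (1 : ℝ) ≤ X := by linarith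
  set z : ℕ := ⌊(X : ℝ) ^ (1 / (r : ℝ))⌋₊ with hz
  have hzle : (z : ℝ) ≤ (X : ℝ) ^ (1 / 2 : ℝ) := by
    refine (Nat.floor_le (by positivity)).trans ?_
    apply Real.rpow_le_rpow_of_exponent_le hX1
    exact one_div_le_one_div_of_le (by norm_num) hrr
  have hsub : (Icc 1 X).filter (fun p : ℕ => p.Prime ∧ ((a : ℤ) * (p : ℤ) ^ 2 - b).natAbs.Prime) ⊆
      Icc 1 (max z (a + b)) ∪ ((Finset.Ioc 0 (4 * X)).filter
        (fun m => Rgh (Pool.Agent.W182.PW.ext (fun _ : Fin 1 => FF a b)) r X X m)) := by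
    intro p hp
    rw [mem_filter, mem_Icc] at hp
    obtain ⟨⟨hp1, hpX⟩, hpp, hpF⟩ := hp
    rw [mem_union, mem_Icc, mem_filter, mem_Ioc]
    rcases le_or_gt p (max z (a + b)) with hle | hlt
    · exact Or.inl ⟨hp1, hle⟩
    · right
      refine ⟨⟨hp1, by omega⟩, ?_⟩
      have hlt1 : z < p := lt_of_le_of_lt (le_max_left _ _) hlt
      have hlt2 : a + b < p := lt_of_le_of_lt (le_max_right _ _) hlt
      unfold Rgh
      intro q hq hQ
      have hqz := (mem_pz.1 hq).1
      have hqp := (mem_pz.1 hq).2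
      unfold Qs Poly.Q at hQ
      obtain ⟨i, hi⟩ := hQ
      rw [Nat.sub_self, Nat.add_zero] at hi
      rcases i with _ | i
      · change (q : ℤ) ∣ (Polynomial.X : Polynomial ℤ).eval (p : ℤ) at hi
        rw [eval_X] at hi
        have h4 : q ∣ p := by exact_mod_cast hi
        rw [(Nat.prime_dvd_prime_iff_eq hqp hpp).1 h4] at hqz
        omega
      · change (q : ℤ) ∣ (FF a b).eval (p : ℤ) at hi
        rw [FF_eval] at hi
        have h4 : q ∣ ((a : ℤ) * (p : ℤ) ^ 2 - b).natAbs := Int.natCast_dvd.1 hi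
        have h5 := (Nat.prime_dvd_prime_iff_eq hqp hpF).1 h4
        have h6 : (p : ℤ) ≤ (a : ℤ) * (p : ℤ) ^ 2 - b := by
          have ha1 : (1 : ℤ) ≤ a := by exact_mod_cast h.ha
          have hb1 : (1 : ℤ) ≤ b := by exact_mod_cast h.hb
          have hlt3 : (a : ℤ) + b < p := by exact_mod_cast hlt2
          nlinarith
        have h7 : (((a : ℤ) * (p : ℤ) ^ 2 - b).natAbs : ℤ) = (a : ℤ) * (p : ℤ) ^ 2 - b :=
          Int.natAbs_of_nonneg (by omega)
        have h8 : (q : ℤ) = (a : ℤ) * (p : ℤ) ^ 2 - b := by rw [h5, h7]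
        have h9 : (p : ℤ) ≤ q := by rw [h8]; exact h6
        have h10 : p ≤ q := by exact_mod_cast h9
        omega
  have h4 : (((Icc 1 X).filter (fun p : ℕ => p.Prime ∧ ((a : ℤ) * (p : ℤ) ^ 2 - b).natAbs.Prime)).card : ℝ) ≤
      ((max z (a + b) : ℕ) : ℝ) + (co (Rgh (Pool.Agent.W182.PW.ext (fun _ : Fin 1 => FF a b)) r X X) 0 (4 * X) : ℝ) := by
    have h5 := (card_le_card hsub).trans (card_union_le _ _)
    rw [Nat.card_Icc] at h5
    unfold co
    have h6 : max z (a + b) + 1 - 1 = max z (a + b) := by omega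
    rw [h6] at h5
    exact_mod_cast h5
  have h5 : ((max z (a + b) : ℕ) : ℝ) ≤ (X : ℝ) ^ (1 / 2 : ℝ) := by
    rw [Nat.cast_max]
    apply max_le hzle
    rw [← Real.sqrt_eq_rpow]
    apply Real.le_sqrt_of_sq_le
    have h6 : ((a + b : ℕ) : ℝ) ^ 2 ≤ (((a + b + 2) ^ 2 : ℕ) : ℝ) := by
      push_cast
      have : (0 : ℝ) ≤ a + b := by positivity
      nlinarith
    exact h6.trans (by exact_mod_cast hXab)
  have hl0 : 0 < Real.log X := by linarith
  have h6 : (X : ℝ) ^ (1 / 2 : ℝ) ≤ X / Real.log X ^ 2 := by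
    rw [le_div_iff₀ (by positivity)]
    rw [one_mul] at e1
    calc (X : ℝ) ^ (1 / 2 : ℝ) * Real.log X ^ 2 ≤ (X : ℝ) ^ (1 / 2 : ℝ) * (X : ℝ) ^ (1 / 2 : ℝ) := by
          gcongr
      _ = X := by
          rw [← Real.rpow_add hX0]
          norm_num
  calc _ ≤ _ := h4
    _ ≤ X / Real.log X ^ 2 + C1 * X / Real.log X ^ 2 := add_le_add (h5.trans h6) h3
    _ ≤ (C1 + 2) * X / Real.log X ^ 2 := by
        rw [← add_div]
        apply div_le_div_of_nonneg_right _ (by positivity)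
        linarith

/-- the `j`-th prime, `pr 1 = 2` -/
noncomputable def pj (j : ℕ) : ℕ := Nat.nth Nat.Prime (j - 1)

theorem pj_prime (j : ℕ) : (pj j).Prime := Nat.prime_nth_prime _

theorem pj_strictMono {i j : ℕ} (hi : 1 ≤ i) (h : i < j) : pj i < pj j := by
  unfold pj
  exact Nat.nth_strictMono Nat.infinite_setOfPred_prime (by omega)

theorem pj_mono {i j : ℕ} (h : i ≤ j) : pj i ≤ pj j := by
  unfold pj
  exact (Nat.nth_strictMono Nat.infinite_setOfPred_prime).monotone (by omega)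

theorem pj_le {J : ℕ} (hJ : 6 ≤ J) : (pj J : ℝ) ≤ 9 * J * Real.log J := by
  refine le_trans ?_ (Pool.Agent.H774EP.nth_le hJ)
  unfold pj
  have := (Nat.nth_strictMono Nat.infinite_setOfPred_prime).monotone (show J - 1 ≤ J by omega)
  exact_mod_cast this

theorem adm12 : Adm 1 2 where
  ha := le_rfl
  hb := by norm_num
  cop := by norm_num
  sq := by
    rintro ⟨r, hr⟩
    push_cast at hr
    have h1 : r < 2 := by nlinarith
    have h2 : -2 < r := by nlinarith
    interval_cases r <;> omega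
  adm := by
    intro p hp
    refine ⟨1, fun h => hp.one_lt.ne' (Nat.dvd_one.1 h), fun h => ?_⟩
    norm_num at h
    exact hp.one_lt.ne' (by
      have h1 : p ∣ 1 := by exact_mod_cast h
      exact Nat.dvd_one.1 h1)

theorem natAbs12 {p : ℕ} (hp : 2 ≤ p) : (((1 : ℕ) : ℤ) * (p : ℤ) ^ 2 - ((2 : ℕ) : ℤ)).natAbs = p ^ 2 - 2 := by
  have h1 : 2 ≤ p ^ 2 := by nlinarith
  have h2 : ((1 : ℕ) : ℤ) * (p : ℤ) ^ 2 - ((2 : ℕ) : ℤ) = ((p ^ 2 - 2 : ℕ) : ℤ) := by
    rw [Nat.cast_sub h1]
    push_cast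
    ring
  rw [h2, Int.natAbs_natCast]

open Classical in
/-- the number of the indices `j ≤ J` for which `p_j ^ 2 - 2` is prime -/
theorem idx_upper : ∃ C : ℝ, 0 < C ∧ ∀ J : ℕ, 2 ≤ J →
    (((Icc 1 J).filter (fun j : ℕ => (pj j ^ 2 - 2).Prime)).card : ℝ) ≤ C * J / Real.log J := by
  obtain ⟨C0, hC0, h0⟩ := upper_count adm12
  obtain ⟨X0, hX0⟩ := eventually_atTop.1 h0
  obtain ⟨J1, hJ1⟩ : ∃ J1 : ℕ, J1 = max 6 X0 := ⟨_, rfl⟩
  refine ⟨10 * C0 + Real.log J1 + 1, by positivity, fun J hJ => ?_⟩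
  have hJr : (2 : ℝ) ≤ J := by exact_mod_cast hJ
  have hJ0 : (0 : ℝ) < J := by linarith
  have hlJ : 0 < Real.log J := Real.log_pos (by linarith)
  rcases lt_or_ge J J1 with hlt | hge
  · have h1 : (((Icc 1 J).filter (fun j : ℕ => (pj j ^ 2 - 2).Prime)).card : ℝ) ≤ J := by
      have := card_filter_le (Icc 1 J) (fun j : ℕ => (pj j ^ 2 - 2).Prime)
      rw [Nat.card_Icc] at this
      have h2 : ((Icc 1 J).filter (fun j : ℕ => (pj j ^ 2 - 2).Prime)).card ≤ J := by omega
      exact_mod_cast h2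
    refine h1.trans ?_
    rw [le_div_iff₀ hlJ]
    have h3 : Real.log J ≤ Real.log J1 := Real.log_le_log hJ0 (by exact_mod_cast hlt.le)
    nlinarith
  · have hJ6 : 6 ≤ J := by omega
    have hJX : X0 ≤ J := by omega
    set X : ℕ := ⌈9 * (J : ℝ) * Real.log J⌉₊ with hX
    have hlJ1 : 1 ≤ Real.log J := by
      rw [Real.le_log_iff_exp_le hJ0]
      have : (6 : ℝ) ≤ J := by exact_mod_cast hJ6
      linarith [Real.exp_one_lt_d9]
    have hXge : 9 * (J : ℝ) * Real.log J ≤ X := Nat.le_ceil _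
    have hXJ : (J : ℝ) ≤ X := by
      refine le_trans ?_ hXge
      nlinarith
    have hXJn : J ≤ X := by exact_mod_cast hXJ
    have hXle : (X : ℝ) ≤ 10 * J * Real.log J := by
      have := (Nat.ceil_lt_add_one (show 0 ≤ 9 * (J : ℝ) * Real.log J by positivity)).le
      have h1 : (1 : ℝ) ≤ J * Real.log J := by nlinarith
      calc (X : ℝ) ≤ 9 * (J : ℝ) * Real.log J + 1 := this
        _ ≤ _ := by linarith
    have h2 := hX0 X (hJX.trans hXJn)
    have h3 : ((Icc 1 J).filter (fun j : ℕ => (pj j ^ 2 - 2).Prime)).card ≤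
        ((Icc 1 X).filter (fun p : ℕ => p.Prime ∧
          (((1 : ℕ) : ℤ) * (p : ℤ) ^ 2 - ((2 : ℕ) : ℤ)).natAbs.Prime)).card := by
      apply card_le_card_of_injOn pj
      · intro j hj
        rw [Finset.mem_coe, mem_filter, mem_Icc] at hj
        rw [Finset.mem_coe, mem_filter, mem_Icc]
        have h4 := pj_prime j
        refine ⟨⟨h4.one_lt.le, ?_⟩, h4, ?_⟩
        · have h5 : (pj j : ℝ) ≤ X := by
            have h6 : (pj j : ℝ) ≤ pj J := by exact_mod_cast pj_mono hj.1.2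
            exact h6.trans ((pj_le hJ6).trans hXge)
          exact_mod_cast h5
        · rw [natAbs12 h4.two_le]
          exact hj.2
      · intro i hi j hj hij
        rw [Finset.mem_coe, mem_filter, mem_Icc] at hi hj
        by_contra hne
        rcases Nat.lt_or_gt_of_ne hne with hlt | hlt
        · exact absurd hij (pj_strictMono hi.1.1 hlt).ne
        · exact absurd hij (pj_strictMono hj.1.1 hlt).ne'
    have h4 : (((Icc 1 J).filter (fun j : ℕ => (pj j ^ 2 - 2).Prime)).card : ℝ) ≤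
        C0 * X / Real.log X ^ 2 := le_trans (by exact_mod_cast h3) h2
    have hlX : Real.log J ≤ Real.log X := Real.log_le_log hJ0 hXJ
    calc _ ≤ _ := h4
      _ ≤ C0 * (10 * J * Real.log J) / Real.log J ^ 2 := by gcongr
      _ = 10 * C0 * J / Real.log J := by
          field_simp
      _ ≤ (10 * C0 + Real.log J1 + 1) * J / Real.log J := by
          apply div_le_div_of_nonneg_right _ hlJ.le
          apply mul_le_mul_of_nonneg_right _ hJ0.le
          have : 0 ≤ Real.log J1 := Real.log_natCast_nonneg _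
          linarith

end Pool.Agent.K9h53.P5
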